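import Pool.Agent.H3RD.LowerP

/-!
# MP_54f573_pr: asymptotics of the lower bound
-/

set_option autoImplicit false

namespace Pool.Agent.H3RD.Lower

open Filter Topology
open Pool.Agent.W830.RD
open scoped Classical

/-- the real-variable estimate: with `L = κ y ^ 4` -/
theorem ev_real (κ μ θ : ℝ) (hκ : 0 < κ) (hθ0 : 0 < θ) (hθ : θ < 1) :
    ∀ᶠ y : ℝ in atTop, 1 ≤ y ∧
      4 * y ^ 2 * (κ * y ^ 4 + 1) ≤ Real.exp ((1 - θ ^ 2) * (κ * y ^ 4) - 8 * μ * y ^ 3) := by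
  have hθ2 : 0 < 1 - θ ^ 2 := by nlinarith
  set c : ℝ := (1 - θ ^ 2) * κ with hc
  have hc0 : 0 < c := mul_pos hθ2 hκ
  have h1 : ∀ᶠ y : ℝ in atTop, 4 * (κ + 1) * y ^ 6 ≤ Real.exp y := by
    have h := Real.tendsto_exp_div_pow_atTop 6
    filter_upwards [h.eventually_ge_atTop (4 * (κ + 1)), eventually_gt_atTop (0 : ℝ)] with y h2 h3
    rw [le_div_iff₀ (by positivity)] at h2
    exact h2
  filter_upwards [h1, eventually_ge_atTop (1 : ℝ), eventually_ge_atTop ((8 * μ + 1) / c)]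
    with y h2 h3 h4
  refine ⟨h3, ?_⟩
  rw [div_le_iff₀ hc0] at h4
  have hy0 : 0 < y := by linarith
  have e1 : (1 - θ ^ 2) * (κ * y ^ 4) = c * y ^ 4 := by rw [hc]; ring
  have h5 : y ≤ (1 - θ ^ 2) * (κ * y ^ 4) - 8 * μ * y ^ 3 := by
    rw [e1]
    have h6 : (8 * μ + 1) * y ^ 3 ≤ (y * c) * y ^ 3 :=
      mul_le_mul_of_nonneg_right h4 (by positivity)
    have h7 : y ≤ y ^ 3 := by
      have : 1 ≤ y ^ 2 := one_le_pow₀ h3
      nlinarith
    have e2 : (y * c) * y ^ 3 = c * y ^ 4 := by ring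
    rw [e2] at h6
    linarith
  refine le_trans ?_ (Real.exp_le_exp.2 h5)
  refine le_trans ?_ h2
  have h8 : (1 : ℝ) ≤ y ^ 4 := one_le_pow₀ h3
  have h9 : κ * y ^ 4 + 1 ≤ (κ + 1) * y ^ 4 := by linarith
  calc 4 * y ^ 2 * (κ * y ^ 4 + 1) ≤ 4 * y ^ 2 * ((κ + 1) * y ^ 4) :=
        mul_le_mul_of_nonneg_left h9 (by positivity)
    _ = 4 * (κ + 1) * y ^ 6 := by ring

/-- the lower bound for the dimension of the random graph order, with probability at least
`1 - 1 / n` -/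
theorem lower_rate (hB : S_PBAS) (hI : S_PIND) {p : ℝ} (hp : 0 < p) (hp1 : p < 1) {ε : ℝ}
    (hε : 0 < ε) (hε1 : ε < 1) :
    ∀ᶠ n : ℕ in atTop, 1 - (n : ℝ) ^ (-(1 : ℝ)) ≤ Pr p n (fun E => ∀ k : ℕ, Rlz (gle E) k →
      (1 - ε) * Real.sqrt (Real.log (n : ℝ) / Real.log (1 / (1 - p))) ≤ k) := by
  have hq0 : 0 < 1 - p := by linarith
  have hlam : 0 < Real.log (1 / (1 - p)) := by
    apply Real.log_pos
    rw [lt_div_iff₀ (by linarith)]
    linarith
  set lam := Real.log (1 / (1 - p)) with hlamd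
  have hm0 : 0 < min p (1 - p) := lt_min hp hq0
  have hm1 : min p (1 - p) ≤ 1 := (min_le_left _ _).trans hp1.le
  set μ : ℝ := -Real.log (min p (1 - p)) with hμd
  have hμ : 0 ≤ μ := by
    rw [hμd]
    have := Real.log_nonpos hm0.le hm1
    linarith
  set θ : ℝ := 1 - ε / 2 with hθd
  have hθ0 : 0 < θ := by rw [hθd]; linarith
  have hθ1 : θ < 1 := by rw [hθd]; linarith
  set κ : ℝ := lam / θ ^ 2 with hκd
  have hκ : 0 < κ := by positivity
  -- `y = √(θ d)` with `d = √(log n / lam)`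
  have hd : Tendsto (fun n : ℕ => Real.sqrt (Real.log n / lam)) atTop atTop :=
    Real.tendsto_sqrt_atTop.comp
      ((Real.tendsto_log_atTop.comp tendsto_natCast_atTop_atTop).atTop_div_const hlam)
  have hy : Tendsto (fun n : ℕ => Real.sqrt (θ * Real.sqrt (Real.log n / lam))) atTop atTop :=
    Real.tendsto_sqrt_atTop.comp (hd.const_mul_atTop hθ0)
  have hdel : 0 < (ε / 2) / θ := by positivity
  filter_upwards [hy.eventually (ev_real κ μ θ hκ hθ0 hθ1),
    hy.eventually_ge_atTop (2 / ((ε / 2) / θ)), eventually_ge_atTop 1] with n h1 h2 hn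
  obtain ⟨hy1, hexp⟩ := h1
  have hn0 : (0 : ℝ) < n := by exact_mod_cast hn
  have hL0 : 0 ≤ Real.log n := Real.log_nonneg (by exact_mod_cast hn)
  set d := Real.sqrt (Real.log n / lam) with hdd
  set y := Real.sqrt (θ * d) with hyd
  have hd0 : 0 ≤ d := Real.sqrt_nonneg _
  have hy0 : 0 < y := by linarith
  have hy2 : y ^ 2 = θ * d := Real.sq_sqrt (by positivity)
  have hd2 : d ^ 2 = Real.log n / lam := Real.sq_sqrt (div_nonneg hL0 hlam.le)
  have hL : κ * y ^ 4 = Real.log n := by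
    have e1 : y ^ 4 = (y ^ 2) ^ 2 := by ring
    rw [e1, hy2, mul_pow, hd2, hκd]
    field_simp
  rw [hL] at hexp
  set r := ⌊y⌋₊ with hrd
  have hr1 : (r : ℝ) ≤ y := Nat.floor_le hy0.le
  have hr2 : y < (r : ℝ) + 1 := Nat.lt_floor_add_one y
  have hrpos : 1 ≤ r := by
    rw [hrd]
    exact Nat.le_floor (by exact_mod_cast hy1)
  have hrpos' : (1 : ℝ) ≤ r := by exact_mod_cast hrpos
  obtain ⟨S, hS⟩ := exists_family r
  set w := 2 * r ^ 2 + 2 * r with hwd
  have hwpos : 0 < w := by positivity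
  set N := n / w with hNd
  have hNw : N * (2 * r ^ 2 + 2 * r) ≤ n := Nat.div_mul_le_self n w
  have hlow := pr_lower hB hI hp hp1 hNw S hS
  set x : ℝ := (1 - p) ^ ((r ^ 2) ^ 2) *
    (min p (1 - p)) ^ ((2 * r) ^ 2 + 2 * (r ^ 2 * (2 * r))) with hxd
  -- the size of `x`
  have hx : Real.exp (-(θ ^ 2 * Real.log n) - 8 * μ * y ^ 3) ≤ x := by
    have e1 : (1 - p) ^ ((r ^ 2) ^ 2) = Real.exp (-(lam * (r : ℝ) ^ 4)) := by
      have h3 : Real.log (1 - p) = -lam := by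
        rw [hlamd, one_div, Real.log_inv]; ring
      have h4 : (1 - p) ^ ((r ^ 2) ^ 2) = Real.exp (((r ^ 2) ^ 2 : ℕ) * Real.log (1 - p)) := by
        rw [Real.exp_nat_mul, Real.exp_log hq0]
      rw [h4, h3]
      congr 1
      push_cast
      ring
    have e2 : (min p (1 - p)) ^ ((2 * r) ^ 2 + 2 * (r ^ 2 * (2 * r))) =
        Real.exp (-(μ * (4 * (r : ℝ) ^ 2 + 4 * (r : ℝ) ^ 3))) := by
      have h4 : (min p (1 - p)) ^ ((2 * r) ^ 2 + 2 * (r ^ 2 * (2 * r))) =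
          Real.exp ((((2 * r) ^ 2 + 2 * (r ^ 2 * (2 * r)) : ℕ)) * Real.log (min p (1 - p))) := by
        rw [Real.exp_nat_mul, Real.exp_log hm0]
      rw [h4, hμd]
      congr 1
      push_cast
      ring
    rw [hxd, e1, e2, ← Real.exp_add]
    apply Real.exp_le_exp.2
    have h3 : (r : ℝ) ^ 4 ≤ y ^ 4 := pow_le_pow_left₀ (by positivity) hr1 4
    have h4 : lam * (r : ℝ) ^ 4 ≤ θ ^ 2 * Real.log n := by
      have h5 : lam * (r : ℝ) ^ 4 ≤ lam * y ^ 4 := mul_le_mul_of_nonneg_left h3 hlam.le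
      have h6 : lam * y ^ 4 = θ ^ 2 * Real.log n := by
        rw [← hL, hκd]
        field_simp
      linarith
    have h5 : (r : ℝ) ^ 2 ≤ y ^ 3 := by
      have h6 : (r : ℝ) ^ 2 ≤ y ^ 2 := pow_le_pow_left₀ (by positivity) hr1 2
      have h7 : y ^ 2 ≤ y ^ 3 := pow_le_pow_right₀ hy1 (by norm_num)
      linarith
    have h6 : (r : ℝ) ^ 3 ≤ y ^ 3 := pow_le_pow_left₀ (by positivity) hr1 3
    have h7 : μ * (4 * (r : ℝ) ^ 2 + 4 * (r : ℝ) ^ 3) ≤ μ * (8 * y ^ 3) :=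
      mul_le_mul_of_nonneg_left (by linarith) hμ
    linarith
  have hx0 : 0 < x := lt_of_lt_of_le (Real.exp_pos _) hx
  have hx1 : x ≤ 1 := by
    rw [hxd]
    exact mul_le_one₀ (pow_le_one₀ hq0.le (by linarith)) (by positivity)
      (pow_le_one₀ hm0.le hm1)
  -- the number of windows
  have hNge : (n : ℝ) / (4 * y ^ 2) - 1 ≤ N := by
    have h3 : (n : ℝ) / w - 1 ≤ N := by
      have h4 : n < w * (N + 1) := by
        rw [hNd]
        exact Nat.lt_mul_div_succ n hwpos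
      have h5 : (n : ℝ) < w * (N + 1) := by exact_mod_cast h4
      have hw0 : (0 : ℝ) < w := by exact_mod_cast hwpos
      have h6 : (n : ℝ) / w < N + 1 := by
        rw [div_lt_iff₀ hw0]
        linarith
      linarith
    have h4 : (w : ℝ) ≤ 4 * y ^ 2 := by
      rw [hwd]
      push_cast
      have h6 : (r : ℝ) ^ 2 ≤ y ^ 2 := pow_le_pow_left₀ (by positivity) hr1 2
      have h7 : (r : ℝ) ≤ (r : ℝ) ^ 2 := by nlinarith
      linarith
    have hw0 : (0 : ℝ) < w := by exact_mod_cast hwpos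
    have h5 : (n : ℝ) / (4 * y ^ 2) ≤ n / w := div_le_div_of_nonneg_left hn0.le hw0 h4
    linarith
  have hxN : Real.log n ≤ x * N := by
    have h3 : x * ((n : ℝ) / (4 * y ^ 2) - 1) ≤ x * N := mul_le_mul_of_nonneg_left hNge hx0.le
    have h4 : Real.log n + 1 ≤ x * ((n : ℝ) / (4 * y ^ 2)) := by
      have h5 : Real.exp (-(θ ^ 2 * Real.log n) - 8 * μ * y ^ 3) * n ≤ x * n :=
        mul_le_mul_of_nonneg_right hx hn0.le
      have h6 : Real.exp (-(θ ^ 2 * Real.log n) - 8 * μ * y ^ 3) * n =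
          Real.exp ((1 - θ ^ 2) * Real.log n - 8 * μ * y ^ 3) := by
        nth_rewrite 2 [← Real.exp_log hn0]
        rw [← Real.exp_add]
        congr 1
        ring
      rw [h6] at h5
      rw [← mul_div_assoc, le_div_iff₀ (by positivity)]
      have h7 := hexp.trans h5
      linarith
    have h5 : x * ((n : ℝ) / (4 * y ^ 2) - 1) = x * ((n : ℝ) / (4 * y ^ 2)) - x := by ring
    rw [h5] at h3
    linarith
  have hfin : (1 - x) ^ N ≤ (n : ℝ) ^ (-(1 : ℝ)) := by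
    have h3 : (1 - x) ^ N ≤ Real.exp (-(x * N)) := by
      calc (1 - x) ^ N ≤ (Real.exp (-x)) ^ N :=
            pow_le_pow_left₀ (by linarith) (Real.one_sub_le_exp_neg x) _
        _ = Real.exp (-(x * N)) := by
            rw [← Real.exp_nat_mul]
            congr 1
            ring
    refine h3.trans ?_
    have h4 : (n : ℝ) ^ (-(1 : ℝ)) = Real.exp (-Real.log n) := by
      rw [Real.rpow_def_of_pos hn0]
      congr 1
      ring
    rw [h4]
    apply Real.exp_le_exp.2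
    linarith
  have hK : (1 - ε) * d ≤ ((r ^ 2 : ℕ) : ℝ) := by
    push_cast
    rw [div_le_iff₀ hdel] at h2
    have h3 : y ^ 2 - 2 * y ≤ (r : ℝ) ^ 2 := by nlinarith
    have h4 : (1 - ε) * d = y ^ 2 - y * (y * ((ε / 2) / θ)) := by
      have h5 : y * (y * ((ε / 2) / θ)) = (ε / 2) * d := by
        have h6 : y * (y * ((ε / 2) / θ)) = y ^ 2 * ((ε / 2) / θ) := by ring
        rw [h6, hy2]
        field_simp
      rw [h5, hy2, hθd]
      ring
    have h6 : y * 2 ≤ y * (y * ((ε / 2) / θ)) := mul_le_mul_of_nonneg_left h2 hy0.le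
    linarith
  obtain ⟨_, _, hmono, _, _, _⟩ := hB p n hp hp1
  have hstep : Pr p n (fun E => ∀ k, Rlz (gle E) k → r ^ 2 ≤ k) ≤
      Pr p n (fun E => ∀ k : ℕ, Rlz (gle E) k → (1 - ε) * d ≤ k) := by
    apply hmono
    intro E _ h3 k hk
    have h4 : ((r ^ 2 : ℕ) : ℝ) ≤ k := by exact_mod_cast h3 k hk
    exact hK.trans h4
  linarith

end Pool.Agent.H3RD.Lower
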