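import Pool.Agent.H3RD.Strong

/-!
# MP_54f573_pr: the lower half of the strong law
-/

set_option autoImplicit false

namespace Pool.Agent.H3RD.Strong

open MeasureTheory ProbabilityTheory Filter Topology
open Pool.Agent.W830.RD
open scoped Classical ENNReal

variable {Ω : Type*} [MeasurableSpace Ω] {μ : Measure Ω}

/-- events with polynomial rate hold almost surely for all large powers of two -/
theorem ae_pow_of_rate {A : ℕ → ℕ → Set Ω} {p : ℝ} (hp : 0 < p) (hp1 : p < 1) (hB : S_PBAS)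
    [IsProbabilityMeasure μ]
    (hA : ∀ i j, i < j → MeasurableSet (A i j))
    (hind : iIndepSet (fun e : Ed => A e.1.1 e.1.2) μ)
    (hμ : ∀ i j, i < j → μ (A i j) = ENNReal.ofReal p)
    {η : ℝ} (hη : 0 < η) (Q : (n : ℕ) → Finset (Fin n × Fin n) → Prop)
    (hrate : ∀ᶠ n : ℕ in atTop, 1 - (n : ℝ) ^ (-η) ≤ Pr p n (Q n)) :
    ∀ᵐ ω ∂μ, ∃ k1 : ℕ, ∀ K : ℕ, k1 ≤ K → Q (2 ^ K) (EE A (2 ^ K) ω) := by
  obtain ⟨N0, hN0⟩ := eventually_atTop.1 hrate
  set r : ℝ := (2 : ℝ) ^ (-η) with hr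
  have hr0 : 0 < r := Real.rpow_pos_of_pos two_pos _
  have hr1 : r < 1 := Real.rpow_lt_one_of_one_lt_of_neg one_lt_two (by linarith)
  let s : ℕ → Set Ω := fun k => {ω | ¬ Q (2 ^ (k + N0)) (EE A (2 ^ (k + N0)) ω)}
  have hs : ∀ k, μ (s k) ≤ ENNReal.ofReal (r ^ k) := by
    intro k
    have h1 : N0 ≤ 2 ^ (k + N0) := by
      have := Nat.lt_two_pow_self (n := k + N0)
      omega
    have h2 := hN0 _ h1
    refine (bad_le hp hp1 hB hA hind hμ _ _ h2).trans ?_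
    apply ENNReal.ofReal_le_ofReal
    have h3 : (((2 ^ (k + N0) : ℕ)) : ℝ) ^ (-η) = r ^ (k + N0) := by
      rw [hr]
      push_cast
      rw [← Real.rpow_natCast, ← Real.rpow_natCast, ← Real.rpow_mul (by norm_num),
        ← Real.rpow_mul (by norm_num), mul_comm]
    rw [h3]
    exact pow_le_pow_of_le_one hr0.le hr1.le (by omega)
  have hsum : ∑' k, μ (s k) ≠ ⊤ := by
    apply ne_top_of_le_ne_top _ (ENNReal.tsum_le_tsum hs)
    exact (summable_geometric_of_lt_one hr0.le hr1).tsum_ofReal_ne_top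
  filter_upwards [ae_eventually_notMem hsum] with ω hω
  obtain ⟨k1, hk1⟩ := eventually_atTop.1 hω
  refine ⟨k1 + N0, fun K hK => ?_⟩
  have h4 := hk1 (K - N0) (by omega)
  have h5 : K - N0 + N0 = K := by omega
  have h6 : ¬ ¬ Q (2 ^ (K - N0 + N0)) (EE A (2 ^ (K - N0 + N0)) ω) := h4
  rw [h5] at h6
  exact not_not.1 h6

/-- `R` has a realiser of size `k` -/
def Real' {n : ℕ} (R : Fin n → Fin n → Prop) (k : ℕ) : Prop :=
  ∃ f : Fin k → Fin n → ℕ, (∀ i, Function.Injective (f i)) ∧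
    ∀ x y : Fin n, (R x y ↔ ∀ i, f i x ≤ f i y)

theorem real_down {A : ℕ → ℕ → Set Ω} {n m k : ℕ} (h : n ≤ m) {ω : Ω}
    (hr : Real' (Relation.ReflTransGen (rel A m ω)) k) : Rlz (gle (EE A n ω)) k := by
  obtain ⟨f, hf, hr⟩ := hr
  refine ⟨fun i x => f i (Fin.castLE h x), fun i => (hf i).comp (Fin.castLE_injective h), ?_⟩
  intro x y
  rw [gle_iff, rtg_iff h]
  exact hr _ _

theorem strong_lower_of_rate {A : ℕ → ℕ → Set Ω} {p : ℝ} (hp : 0 < p) (hp1 : p < 1)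
    (hB : S_PBAS) [IsProbabilityMeasure μ]
    (hA : ∀ i j, i < j → MeasurableSet (A i j))
    (hind : iIndepSet (fun e : Ed => A e.1.1 e.1.2) μ)
    (hμ : ∀ i j, i < j → μ (A i j) = ENNReal.ofReal p)
    {ε η : ℝ} (hε : 0 < ε) (hε1 : ε < 1) (hη : 0 < η)
    (hrate : ∀ᶠ n : ℕ in atTop, 1 - (n : ℝ) ^ (-η) ≤ Pr p n (fun E => ∀ k : ℕ, Rlz (gle E) k →
      (1 - ε / 2) * Real.sqrt (Real.log (n : ℝ) / Real.log (1 / (1 - p))) ≤ k)) :
    ∀ᵐ ω ∂μ, ∀ᶠ n : ℕ in atTop, ∀ k : ℕ, Real' (Relation.ReflTransGen (rel A n ω)) k →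
      (1 - ε) * Real.sqrt (Real.log (n : ℝ) / Real.log (1 / (1 - p))) ≤ k := by
  have hlam : 0 < Real.log (1 / (1 - p)) := by
    apply Real.log_pos
    rw [lt_div_iff₀ (by linarith)]
    linarith
  have hae := ae_pow_of_rate hp hp1 hB hA hind hμ hη
    (fun n E => ∀ k : ℕ, Rlz (gle E) k →
      (1 - ε / 2) * Real.sqrt (Real.log (n : ℝ) / Real.log (1 / (1 - p))) ≤ k) hrate
  filter_upwards [hae] with ω hω
  obtain ⟨k1, hk1⟩ := hω
  set c : ℝ := (1 - ε / 2) ^ 2 - (1 - ε) ^ 2 with hc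
  have hc0 : 0 < c := by
    rw [hc]
    nlinarith
  have hlog := (Real.tendsto_log_atTop.comp tendsto_natCast_atTop_atTop).eventually_ge_atTop
    ((1 - ε / 2) ^ 2 * Real.log 2 / c)
  filter_upwards [hlog, eventually_ge_atTop (2 ^ k1), eventually_ge_atTop 1]
    with n h1 h2 h3 k hk
  simp only [Function.comp_apply] at h1
  rw [div_le_iff₀ hc0] at h1
  set K := Nat.log 2 n with hK
  have hn1 : 2 ^ K ≤ n := Nat.pow_log_le_self 2 (by omega)
  have hn2 : n < 2 ^ (K + 1) := Nat.lt_pow_succ_log_self one_lt_two n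
  have hK1 : k1 ≤ K := by
    by_contra hcon
    have : 2 ^ (K + 1) ≤ 2 ^ k1 := Nat.pow_le_pow_right (by norm_num) (by omega)
    omega
  have hlow := hk1 K hK1 k (real_down hn1 hk)
  refine le_trans ?_ hlow
  have hnpos : (0 : ℝ) < n := by exact_mod_cast h3
  have h7 : Real.log n - Real.log 2 ≤ Real.log (((2 ^ K : ℕ)) : ℝ) := by
    rw [← Real.log_div hnpos.ne' (by norm_num)]
    apply Real.log_le_log (by positivity)
    rw [div_le_iff₀ (by norm_num)]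
    have h8 : n ≤ 2 ^ K * 2 := by
      rw [pow_succ] at hn2
      omega
    exact_mod_cast h8
  have h8 : ∀ (t x : ℝ), 0 ≤ t → t * Real.sqrt x = Real.sqrt (t ^ 2 * x) := by
    intro t x ht
    rw [Real.sqrt_mul (sq_nonneg t), Real.sqrt_sq ht]
  rw [h8 _ _ (by linarith), h8 _ _ (by linarith)]
  apply Real.sqrt_le_sqrt
  rw [← mul_div_assoc, ← mul_div_assoc]
  apply div_le_div_of_nonneg_right _ hlam.le
  have h9 : (1 - ε / 2) ^ 2 * (Real.log n - Real.log 2) ≤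
      (1 - ε / 2) ^ 2 * Real.log (((2 ^ K : ℕ)) : ℝ) :=
    mul_le_mul_of_nonneg_left h7 (sq_nonneg _)
  refine le_trans ?_ h9
  have : Real.log n * c = (1 - ε / 2) ^ 2 * Real.log n - (1 - ε) ^ 2 * Real.log n := by
    rw [hc]; ring
  rw [this] at h1
  linarith

/-- least size of a realiser -/
noncomputable def dimn {n : ℕ} (R : Fin n → Fin n → Prop) : ℕ := sInf {k | Real' R k}

theorem tendsto_of_bounds {D : ℕ → ℕ} {d : ℕ → ℝ} (hd : Tendsto d atTop atTop)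
    (h : ∀ j : ℕ, ∀ᶠ n in atTop, (1 - 1 / ((j : ℝ) + 2)) * d n ≤ D n ∧
      (D n : ℝ) ≤ (1 + 1 / ((j : ℝ) + 2)) * d n) :
    Tendsto (fun n => (D n : ℝ) / d n) atTop (𝓝 1) := by
  rw [Metric.tendsto_atTop']
  intro δ hδ
  obtain ⟨j, hj⟩ := exists_nat_one_div_lt hδ
  have hj2 : 1 / ((j : ℝ) + 2) < δ := by
    refine lt_of_le_of_lt ?_ hj
    apply one_div_le_one_div_of_le (by positivity)
    linarith
  obtain ⟨N, hN⟩ := eventually_atTop.1 ((h j).and (hd.eventually_gt_atTop 0))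
  refine ⟨N, fun n hn => ?_⟩
  obtain ⟨⟨h1, h2⟩, h3⟩ := hN n hn.le
  rw [Real.dist_eq, abs_lt]
  rw [← le_div_iff₀ h3] at h1
  rw [← div_le_iff₀ h3] at h2
  constructor <;> linarith

end Pool.Agent.H3RD.Strong
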