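import Pool.Agent.H3RD.Rate
import Pool.Agent.H3RD.LowerA
import Pool.Agent.H3RD.StrongLow

/-!
# MP_54f573_pr: assembly of the two-sided statements
-/

set_option autoImplicit false

namespace Pool.Agent.H3RD.Final

open MeasureTheory ProbabilityTheory Filter Topology
open Pool.Agent.W830.RD
open Pool.Agent.H3RD.Strong
open scoped Classical ENNReal

theorem two_sided (p : ℝ) (hp : 0 < p) (hp1 : p < 1) (ε : ℝ) (hε : 0 < ε) :
    ∃ η : ℝ, 0 < η ∧ ∀ᶠ n : ℕ in atTop,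
      1 - (n : ℝ) ^ (-η) ≤ Pr p n (fun E =>
        (∃ k : ℕ, (k : ℝ) ≤ (1 + ε) * Real.sqrt (Real.log (n : ℝ) / Real.log (1 / (1 - p))) ∧
          Rlz (gle E) k) ∧
        ∀ k : ℕ, Rlz (gle E) k →
          (1 - ε) * Real.sqrt (Real.log (n : ℝ) / Real.log (1 / (1 - p))) ≤ k) := by
  obtain ⟨η0, hη0, hup⟩ := Pool.Agent.H3RD.Rate.rate_pow p hp hp1 ε hε
  obtain ⟨e, he, he1, heε⟩ : ∃ e : ℝ, 0 < e ∧ e < 1 ∧ e ≤ ε :=
    ⟨min ε (1 / 2), lt_min hε (by norm_num), lt_of_le_of_lt (min_le_right _ _) (by norm_num),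
      min_le_left _ _⟩
  have hlow := Pool.Agent.H3RD.Lower.lower_rate Pool.Agent.W830.RD.Glue.pbas
    Pool.Agent.W830.RD.Glue.pind hp hp1 he he1
  set η : ℝ := min η0 1 / 2 with hη
  have hη1 : 0 < η := by
    rw [hη]
    have : 0 < min η0 1 := lt_min hη0 one_pos
    positivity
  refine ⟨η, hη1, ?_⟩
  have hsmall : ∀ᶠ n : ℕ in atTop, (n : ℝ) ^ (-η) ≤ 1 / 2 := by
    have h := (tendsto_rpow_neg_atTop hη1).comp (tendsto_natCast_atTop_atTop (R := ℝ))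
    exact (h.eventually_lt_const (by norm_num : (0 : ℝ) < 1 / 2)).mono fun n hn => le_of_lt hn
  filter_upwards [hup, hlow, hsmall, eventually_ge_atTop 1] with n h1 h2 h3 hn
  have hn1 : (1 : ℝ) ≤ n := by exact_mod_cast hn
  have hn0 : (0 : ℝ) < n := by linarith
  obtain ⟨_, _, hmono, hor, hcompl, _⟩ := Pool.Agent.W830.RD.Glue.pbas p n hp hp1
  set d := Real.sqrt (Real.log (n : ℝ) / Real.log (1 / (1 - p))) with hd
  have hd0 : 0 ≤ d := Real.sqrt_nonneg _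
  set P1 : Finset (Fin n × Fin n) → Prop := fun E =>
    ∃ k : ℕ, (k : ℝ) ≤ (1 + ε) * d ∧ Rlz (gle E) k with hP1
  set P2 : Finset (Fin n × Fin n) → Prop := fun E =>
    ∀ k : ℕ, Rlz (gle E) k → (1 - e) * d ≤ k with hP2
  set P3 : Finset (Fin n × Fin n) → Prop := fun E =>
    ∀ k : ℕ, Rlz (gle E) k → (1 - ε) * d ≤ k with hP3
  have e1 := hcompl (fun E => P1 E ∧ P3 E)
  have e2 := hcompl P1
  have e3 := hcompl P2
  have e4 : Pr p n (fun E => ¬ (P1 E ∧ P3 E)) ≤ Pr p n (fun E => ¬ P1 E ∨ ¬ P2 E) := by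
    apply hmono
    intro E _ h
    by_contra hcon
    push Not at hcon
    refine h ⟨hcon.1, fun k hk => ?_⟩
    have := hcon.2 k hk
    refine le_trans ?_ this
    exact mul_le_mul_of_nonneg_right (by linarith) hd0
  have e5 := hor (fun E => ¬ P1 E) (fun E => ¬ P2 E)
  have e6 : (n : ℝ) ^ (-η0) ≤ (n : ℝ) ^ (-η) * (n : ℝ) ^ (-η) := by
    rw [← Real.rpow_add hn0]
    apply Real.rpow_le_rpow_of_exponent_le hn1
    have : min η0 1 ≤ η0 := min_le_left _ _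
    linarith
  have e7 : (n : ℝ) ^ (-(1 : ℝ)) ≤ (n : ℝ) ^ (-η) * (n : ℝ) ^ (-η) := by
    rw [← Real.rpow_add hn0]
    apply Real.rpow_le_rpow_of_exponent_le hn1
    have : min η0 1 ≤ 1 := min_le_right _ _
    linarith
  have e8 : 0 < (n : ℝ) ^ (-η) := Real.rpow_pos_of_pos hn0 _
  have e9 : (n : ℝ) ^ (-η) * (n : ℝ) ^ (-η) ≤ (1 / 2) * (n : ℝ) ^ (-η) :=
    mul_le_mul_of_nonneg_right h3 e8.le
  show 1 - (n : ℝ) ^ (-η) ≤ Pr p n (fun E => P1 E ∧ P3 E)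
  linarith

theorem strong_law {Ω : Type*} [MeasurableSpace Ω] {μ : Measure Ω} [IsProbabilityMeasure μ]
    {A : ℕ → ℕ → Set Ω} {p : ℝ} (hp : 0 < p) (hp1 : p < 1)
    (hA : ∀ i j, i < j → MeasurableSet (A i j))
    (hind : iIndepSet (fun e : Ed => A e.1.1 e.1.2) μ)
    (hμ : ∀ i j, i < j → μ (A i j) = ENNReal.ofReal p) :
    ∀ᵐ ω ∂μ, Tendsto (fun n : ℕ => (dimn (Relation.ReflTransGen (rel A n ω)) : ℝ) /
      Real.sqrt (Real.log (n : ℝ) / Real.log (1 / (1 - p)))) atTop (𝓝 1) := by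
  have hlam : 0 < Real.log (1 / (1 - p)) := by
    apply Real.log_pos
    rw [lt_div_iff₀ (by linarith)]
    linarith
  have hd : Tendsto (fun n : ℕ => Real.sqrt (Real.log n / Real.log (1 / (1 - p)))) atTop atTop :=
    Real.tendsto_sqrt_atTop.comp
      ((Real.tendsto_log_atTop.comp tendsto_natCast_atTop_atTop).atTop_div_const hlam)
  have hup : ∀ j : ℕ, ∀ᵐ ω ∂μ, ∀ᶠ n : ℕ in atTop, ∃ k : ℕ,
      (k : ℝ) ≤ (1 + 1 / ((j : ℝ) + 2)) *
        Real.sqrt (Real.log (n : ℝ) / Real.log (1 / (1 - p))) ∧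
      Real' (Relation.ReflTransGen (rel A n ω)) k := by
    intro j
    have hj : 0 < 1 / ((j : ℝ) + 2) := by positivity
    obtain ⟨η, hη, hrate⟩ := Pool.Agent.H3RD.Rate.rate_pow p hp hp1
      (1 / ((j : ℝ) + 2) / 2) (by positivity)
    exact strong_of_rate hp hp1 Pool.Agent.W830.RD.Glue.pbas hA hind hμ hj hη hrate
  have hlow : ∀ j : ℕ, ∀ᵐ ω ∂μ, ∀ᶠ n : ℕ in atTop, ∀ k : ℕ,
      Real' (Relation.ReflTransGen (rel A n ω)) k →
      (1 - 1 / ((j : ℝ) + 2)) *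
        Real.sqrt (Real.log (n : ℝ) / Real.log (1 / (1 - p))) ≤ k := by
    intro j
    have hj : 0 < 1 / ((j : ℝ) + 2) := by positivity
    have hj1 : 1 / ((j : ℝ) + 2) < 1 := by
      rw [div_lt_one (by positivity)]
      have : (0 : ℝ) ≤ j := Nat.cast_nonneg j
      linarith
    have hrate := Pool.Agent.H3RD.Lower.lower_rate Pool.Agent.W830.RD.Glue.pbas
      Pool.Agent.W830.RD.Glue.pind hp hp1 (half_pos hj) (by linarith)
    exact strong_lower_of_rate hp hp1 Pool.Agent.W830.RD.Glue.pbas hA hind hμ hj hj1 one_pos hrate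
  filter_upwards [ae_all_iff.2 hup, ae_all_iff.2 hlow] with ω h1 h2
  apply tendsto_of_bounds hd
  intro j
  filter_upwards [h1 j, h2 j] with n h3 h4
  obtain ⟨k, hk, hkr⟩ := h3
  have hne : {k | Real' (Relation.ReflTransGen (rel A n ω)) k}.Nonempty := ⟨k, hkr⟩
  constructor
  · exact h4 _ (Nat.sInf_mem hne)
  · refine le_trans ?_ hk
    exact_mod_cast Nat.sInf_le hkr

end Pool.Agent.H3RD.Final
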