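import Mathlib
import Pool.Agent.H3RD.W830.RD.Stm

/-!
# MP_54f573_pr: lower bound for the dimension of random graph orders (standard examples in windows)
-/

set_option autoImplicit false

namespace Pool.Agent.H3RD.Lower

open Filter Topology
open Pool.Agent.W830.RD
open scoped Classical

/-! ## Standard examples have large dimension -/

theorem std_dim {α : Type} {le : α → α → Prop} {K k : ℕ} (a b : Fin K → α)
    (h : ∀ i j, le (a i) (b j) ↔ i ≠ j) (hr : Rlz le k) : K ≤ k := by
  obtain ⟨f, _, hf⟩ := hr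
  have h1 : ∀ i, ∃ t, f t (b i) < f t (a i) := by
    intro i
    by_contra hcon
    push Not at hcon
    exact (h i i).1 ((hf _ _).2 hcon) rfl
  choose t ht using h1
  have hinj : Function.Injective t := by
    intro i j hij
    by_contra hne
    have h2 := (hf _ _).1 ((h i j).2 hne) (t i)
    have h3 := (hf _ _).1 ((h j i).2 (Ne.symm hne)) (t i)
    have h4 := ht i
    have h5 := ht j
    rw [← hij] at h5
    omega
  have := Fintype.card_le_of_injective t hinj
  simpa using this

/-! ## The pattern in a window -/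

/-- the pattern: an antichain `a`, an antichain `c`, an antichain `b` filling the window
`[v, v + w)` and the prescribed edges between them -/
structure Pat {n : ℕ} (E : Finset (Fin n × Fin n)) (v w K s : ℕ) (S : Fin K → Finset (Fin s))
    (a b : Fin K → Fin n) (c : Fin s → Fin n) : Prop where
  cov : ∀ x : Fin n, v ≤ (x : ℕ) → (x : ℕ) < v + w →
    (∃ i, x = a i) ∨ (∃ m, x = c m) ∨ (∃ i, x = b i)
  ac : ∀ i m, a i < c m
  cb : ∀ m i, c m < b i
  ab : ∀ i j, a i < b j
  va : ∀ i, v ≤ (a i : ℕ)
  bw : ∀ i, (b i : ℕ) < v + w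
  bi : Function.Injective b
  eaa : ∀ i j, (a i, a j) ∉ E
  ecc : ∀ i j, (c i, c j) ∉ E
  ebb : ∀ i j, (b i, b j) ∉ E
  eac : ∀ i m, (a i, c m) ∈ E ↔ m ∈ S i
  ecb : ∀ i m, (c m, b i) ∈ E ↔ m ∉ S i
  eab : ∀ i, (a i, b i) ∉ E

theorem pat_le {n : ℕ} {E : Finset (Fin n × Fin n)} (hE : E ⊆ Om n) {v w K s : ℕ}
    {S : Fin K → Finset (Fin s)} {a b : Fin K → Fin n} {c : Fin s → Fin n}
    (hS : ∀ i j, i ≠ j → ∃ m, m ∈ S i ∧ m ∉ S j)
    (hP : Pat E v w K s S a b c) (i j : Fin K) : gle E (a i) (b j) ↔ i ≠ j := by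
  have hlt : ∀ x y, (x, y) ∈ E → x < y := by
    intro x y h
    have := hE h
    unfold Om at this
    rw [Finset.mem_filter] at this
    exact this.2
  constructor
  · rintro h rfl
    let R : Fin n → Prop := fun x => x = a i ∨ (∃ m ∈ S i, x = c m) ∨ (∃ j, j ≠ i ∧ x = b j) ∨
      v + w ≤ (x : ℕ)
    have hstep : ∀ x y, R x → (x, y) ∈ E → R y := by
      intro x y hx hxy
      have hxy' := hlt x y hxy
      have hxn : (x : ℕ) < (y : ℕ) := Fin.lt_def.1 hxy'
      by_cases hy : v + w ≤ (y : ℕ)
      · exact Or.inr (Or.inr (Or.inr hy))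
      have hvx : v ≤ (x : ℕ) := by
        rcases hx with rfl | ⟨m, _, rfl⟩ | ⟨j, _, rfl⟩ | hx
        · exact hP.va i
        · have h1 := hP.va i
          have h2 := Fin.lt_def.1 (hP.ac i m)
          omega
        · have h1 := hP.va i
          have h2 := Fin.lt_def.1 (hP.ab i j)
          omega
        · omega
      have hcov := hP.cov y (by omega) (by omega)
      rcases hx with rfl | ⟨m, hm, rfl⟩ | ⟨j, hj, rfl⟩ | hx
      · rcases hcov with ⟨j, rfl⟩ | ⟨m, rfl⟩ | ⟨j, rfl⟩
        · exact absurd hxy (hP.eaa _ _)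
        · exact Or.inr (Or.inl ⟨m, (hP.eac _ _).1 hxy, rfl⟩)
        · refine Or.inr (Or.inr (Or.inl ⟨j, ?_, rfl⟩))
          rintro rfl
          exact hP.eab _ hxy
      · rcases hcov with ⟨j, rfl⟩ | ⟨m', rfl⟩ | ⟨j, rfl⟩
        · exact absurd (hP.ac j m) (not_lt.2 hxy'.le)
        · exact absurd hxy (hP.ecc _ _)
        · refine Or.inr (Or.inr (Or.inl ⟨j, ?_, rfl⟩))
          rintro rfl
          exact (hP.ecb _ _).1 hxy hm
      · rcases hcov with ⟨j', rfl⟩ | ⟨m', rfl⟩ | ⟨j', rfl⟩
        · exact absurd (hP.ab j' j) (not_lt.2 hxy'.le)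
        · exact absurd (hP.cb m' j) (not_lt.2 hxy'.le)
        · exact absurd hxy (hP.ebb _ _)
      · omega
    have hR : R (b i) := by
      have h0 : R (a i) := Or.inl rfl
      have : ∀ y, Relation.ReflTransGen (fun a b => (a, b) ∈ E) (a i) y → R y := by
        intro y hy
        induction hy with
        | refl => exact h0
        | tail _ h2 ih => exact hstep _ _ ih h2
      exact this _ h
    rcases hR with h1 | ⟨m, _, h1⟩ | ⟨j, hj, h1⟩ | h1
    · have := hP.ab i i
      rw [h1] at this
      exact lt_irrefl _ this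
    · have := hP.cb m i
      rw [h1] at this
      exact lt_irrefl _ this
    · exact hj (hP.bi h1).symm
    · have := hP.bw i
      omega
  · intro hne
    obtain ⟨m, h1, h2⟩ := hS i j hne
    have e1 : (a i, c m) ∈ E := (hP.eac _ _).2 h1
    have e2 : (c m, b j) ∈ E := (hP.ecb _ _).2 h2
    exact Relation.ReflTransGen.head e1 (Relation.ReflTransGen.single e2)

theorem pat_dim {n : ℕ} {E : Finset (Fin n × Fin n)} (hE : E ⊆ Om n) {v w K s : ℕ}
    {S : Fin K → Finset (Fin s)} {a b : Fin K → Fin n} {c : Fin s → Fin n}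
    (hS : ∀ i j, i ≠ j → ∃ m, m ∈ S i ∧ m ∉ S j)
    (hP : Pat E v w K s S a b c) {k : ℕ} (hr : Rlz (gle E) k) : K ≤ k :=
  std_dim a b (fun i j => pat_le hE hS hP i j) hr

/-! ## Explicit windows -/

section window

variable {n v K s : ℕ} (h : v + (2 * K + s) ≤ n)

/-- lower part -/
def wa (i : Fin K) : Fin n := ⟨v + i, by have := i.2; omega⟩

/-- middle part -/
def wc (m : Fin s) : Fin n := ⟨v + K + m, by have := m.2; omega⟩

/-- upper part -/
def wb (i : Fin K) : Fin n := ⟨v + K + s + i, by have := i.2; omega⟩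

/-- the main non-edges -/
def S1f (q : Fin K × Fin K) : Fin n × Fin n :=
  if q.1 < q.2 then (wa h q.1, wa h q.2) else
    if q.2 < q.1 then (wb h q.2, wb h q.1) else (wa h q.1, wb h q.1)

/-- the main non-edges -/
def S1 : Finset (Fin n × Fin n) := Finset.univ.image (S1f h)

/-- the remaining prescribed pairs -/
def S2 : Finset (Fin n × Fin n) :=
  ((Finset.univ : Finset (Fin s × Fin s)).filter (fun q => q.1 < q.2)).image
      (fun q => (wc (K := K) h q.1, wc h q.2)) ∪
    ((Finset.univ : Finset (Fin K × Fin s)).image (fun q => (wa h q.1, wc h q.2)) ∪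
      (Finset.univ : Finset (Fin K × Fin s)).image (fun q => (wc h q.2, wb h q.1)))

/-- the prescribed edges -/
def TT (S : Fin K → Finset (Fin s)) : Finset (Fin n × Fin n) :=
  ((Finset.univ : Finset (Fin K × Fin s)).filter (fun q => q.2 ∈ S q.1)).image
      (fun q => (wa h q.1, wc h q.2)) ∪
    ((Finset.univ : Finset (Fin K × Fin s)).filter (fun q => q.2 ∉ S q.1)).image
      (fun q => (wc h q.2, wb h q.1))

theorem card_S1 : (S1 h).card ≤ K ^ 2 := by
  unfold S1
  refine Finset.card_image_le.trans ?_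
  rw [Finset.card_univ, Fintype.card_prod, Fintype.card_fin]
  exact le_of_eq (by ring)

theorem card_S2 : (S2 (K := K) (s := s) h).card ≤ s ^ 2 + 2 * (K * s) := by
  unfold S2
  refine (Finset.card_union_le _ _).trans ?_
  have h1 : (((Finset.univ : Finset (Fin s × Fin s)).filter (fun q => q.1 < q.2)).image
      (fun q => (wc (K := K) h q.1, wc h q.2))).card ≤ s ^ 2 := by
    refine Finset.card_image_le.trans ((Finset.card_filter_le _ _).trans ?_)
    rw [Finset.card_univ, Fintype.card_prod, Fintype.card_fin]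
    exact le_of_eq (by ring)
  have h2 := Finset.card_union_le
    ((Finset.univ : Finset (Fin K × Fin s)).image (fun q => (wa h q.1, wc h q.2)))
    ((Finset.univ : Finset (Fin K × Fin s)).image (fun q => (wc h q.2, wb h q.1)))
  have h3 : ((Finset.univ : Finset (Fin K × Fin s)).image
      (fun q => (wa h q.1, wc h q.2))).card ≤ K * s := by
    refine Finset.card_image_le.trans ?_
    rw [Finset.card_univ, Fintype.card_prod, Fintype.card_fin, Fintype.card_fin]
  have h4 : ((Finset.univ : Finset (Fin K × Fin s)).image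
      (fun q => (wc h q.2, wb h q.1))).card ≤ K * s := by
    refine Finset.card_image_le.trans ?_
    rw [Finset.card_univ, Fintype.card_prod, Fintype.card_fin, Fintype.card_fin]
  omega

/-- both coordinates lie in the window and are increasing -/
def InW (e : Fin n × Fin n) : Prop :=
  v ≤ (e.1 : ℕ) ∧ (e.1 : ℕ) < (e.2 : ℕ) ∧ (e.2 : ℕ) < v + (2 * K + s)

theorem S1_in {e : Fin n × Fin n} (he : e ∈ S1 h) : InW (v := v) (K := K) (s := s) e := by
  unfold S1 at he
  rw [Finset.mem_image] at he
  obtain ⟨⟨i, j⟩, _, rfl⟩ := he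
  have hi := i.2
  have hj := j.2
  unfold S1f InW
  split_ifs with h1 h2
  · have := Fin.lt_def.1 h1
    simp only [wa] at *
    omega
  · have := Fin.lt_def.1 h2
    simp only [wb] at *
    omega
  · simp only [wa, wb]
    omega

theorem S2_in {e : Fin n × Fin n} (he : e ∈ S2 (K := K) (s := s) h) :
    InW (v := v) (K := K) (s := s) e := by
  unfold S2 at he
  rw [Finset.mem_union, Finset.mem_union, Finset.mem_image, Finset.mem_image,
    Finset.mem_image] at he
  unfold InW
  rcases he with ⟨⟨i, j⟩, h1, rfl⟩ | ⟨⟨i, j⟩, _, rfl⟩ | ⟨⟨i, j⟩, _, rfl⟩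
  · have h2 := Fin.lt_def.1 (Finset.mem_filter.1 h1).2
    have hi := i.2
    have hj := j.2
    simp only [wc] at *
    omega
  · have hi := i.2
    have hj := j.2
    simp only [wc, wa] at *
    omega
  · have hi := i.2
    have hj := j.2
    simp only [wc, wb] at *
    omega

theorem TT_sub (S : Fin K → Finset (Fin s)) : TT h S ⊆ S2 h := by
  intro e he
  unfold TT at he
  unfold S2
  rw [Finset.mem_union, Finset.mem_image, Finset.mem_image] at he
  rw [Finset.mem_union, Finset.mem_union]
  rcases he with ⟨q, _, rfl⟩ | ⟨q, _, rfl⟩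
  · exact Or.inr (Or.inl (Finset.mem_image_of_mem _ (Finset.mem_univ q)))
  · exact Or.inr (Or.inr (Finset.mem_image_of_mem (fun q => (wc h q.2, wb h q.1))
      (Finset.mem_univ q)))

theorem mem_TT_ac (S : Fin K → Finset (Fin s)) (i : Fin K) (m : Fin s) :
    (wa h i, wc h m) ∈ TT h S ↔ m ∈ S i := by
  unfold TT
  rw [Finset.mem_union, Finset.mem_image, Finset.mem_image]
  constructor
  · rintro (⟨⟨i', m'⟩, h1, h2⟩ | ⟨⟨i', m'⟩, _, h2⟩)
    · have h3 := (Finset.mem_filter.1 h1).2
      simp only [wa, wc, Prod.mk.injEq, Fin.mk.injEq] at h2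
      have e1 : i' = i := Fin.ext (by omega)
      have e2 : m' = m := Fin.ext (by omega)
      subst e1 e2
      exact h3
    · exfalso
      simp only [wa, wc, wb, Prod.mk.injEq, Fin.mk.injEq] at h2
      have := i.2
      omega
  · intro hm
    exact Or.inl ⟨(i, m), Finset.mem_filter.2 ⟨Finset.mem_univ _, hm⟩, rfl⟩

theorem mem_TT_cb (S : Fin K → Finset (Fin s)) (i : Fin K) (m : Fin s) :
    (wc h m, wb h i) ∈ TT h S ↔ m ∉ S i := by
  unfold TT
  rw [Finset.mem_union, Finset.mem_image, Finset.mem_image]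
  constructor
  · rintro (⟨⟨i', m'⟩, _, h2⟩ | ⟨⟨i', m'⟩, h1, h2⟩)
    · exfalso
      simp only [wa, wc, wb, Prod.mk.injEq, Fin.mk.injEq] at h2
      have := i'.2
      omega
    · have h3 := (Finset.mem_filter.1 h1).2
      simp only [wb, wc, Prod.mk.injEq, Fin.mk.injEq] at h2
      have e1 : i' = i := Fin.ext (by omega)
      have e2 : m' = m := Fin.ext (by omega)
      subst e1 e2
      exact h3
  · intro hm
    exact Or.inr ⟨(i, m), Finset.mem_filter.2 ⟨Finset.mem_univ _, hm⟩, rfl⟩

theorem S1_notMem_TT (S : Fin K → Finset (Fin s)) {e : Fin n × Fin n} (he : e ∈ S1 h) :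
    e ∉ TT h S := by
  unfold S1 at he
  rw [Finset.mem_image] at he
  obtain ⟨⟨i, j⟩, _, rfl⟩ := he
  have hi := i.2
  have hj := j.2
  intro hT
  unfold TT at hT
  rw [Finset.mem_union, Finset.mem_image, Finset.mem_image] at hT
  unfold S1f at hT
  rcases hT with ⟨⟨i', m'⟩, _, h2⟩ | ⟨⟨i', m'⟩, _, h2⟩
  · have hi' := i'.2
    have hm' := m'.2
    split_ifs at h2 <;> simp only [wa, wb, wc, Prod.mk.injEq, Fin.mk.injEq] at h2 <;> omega
  · have hi' := i'.2
    have hm' := m'.2
    split_ifs at h2 <;> simp only [wa, wb, wc, Prod.mk.injEq, Fin.mk.injEq] at h2 <;> omega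

theorem pat_of {E : Finset (Fin n × Fin n)} (hE : E ⊆ Om n) (S : Fin K → Finset (Fin s))
    (hES : E ∩ (S1 h ∪ S2 h) = TT h S) :
    Pat E v (2 * K + s) K s S (wa h) (wb h) (wc h) := by
  have hlt : ∀ x y, (x, y) ∈ E → x < y := by
    intro x y h
    have := hE h
    unfold Om at this
    rw [Finset.mem_filter] at this
    exact this.2
  have hmem : ∀ e ∈ S1 h ∪ S2 h, (e ∈ E ↔ e ∈ TT h S) := by
    intro e he
    rw [← hES, Finset.mem_inter]
    exact ⟨fun h1 => ⟨h1, he⟩, fun h1 => h1.1⟩
  have hS1 : ∀ q, S1f h q ∉ E := by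
    intro q hq
    have h1 : S1f h q ∈ S1 h := Finset.mem_image_of_mem _ (Finset.mem_univ q)
    exact S1_notMem_TT h S h1 ((hmem _ (Finset.mem_union_left _ h1)).1 hq)
  refine ⟨?_, ?_, ?_, ?_, ?_, ?_, ?_, ?_, ?_, ?_, ?_, ?_, ?_⟩
  · intro x hx1 hx2
    by_cases h1 : (x : ℕ) < v + K
    · left
      exact ⟨⟨x - v, by omega⟩, Fin.ext (by simp only [wa]; omega)⟩
    · by_cases h2 : (x : ℕ) < v + K + s
      · right; left
        exact ⟨⟨x - (v + K), by omega⟩, Fin.ext (by simp only [wc]; omega)⟩
      · right; right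
        exact ⟨⟨x - (v + K + s), by omega⟩, Fin.ext (by simp only [wb]; omega)⟩
  · intro i m
    have := i.2
    exact Fin.lt_def.2 (by simp only [wa, wc]; omega)
  · intro m i
    have := m.2
    exact Fin.lt_def.2 (by simp only [wb, wc]; omega)
  · intro i j
    have := i.2
    exact Fin.lt_def.2 (by simp only [wb, wa]; omega)
  · intro i
    simp only [wa]; omega
  · intro i
    have := i.2
    simp only [wb]; omega
  · intro i j hij
    simp only [wb, Fin.mk.injEq] at hij
    exact Fin.ext (by omega)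
  · intro i j hij
    have h1 := hlt _ _ hij
    have h2 : i < j := by
      have := Fin.lt_def.1 h1
      simp only [wa] at this
      exact Fin.lt_def.2 (by omega)
    have h3 := hS1 (i, j)
    unfold S1f at h3
    rw [if_pos h2] at h3
    exact h3 hij
  · intro i j hij
    have h1 := hlt _ _ hij
    have h2 : i < j := by
      have := Fin.lt_def.1 h1
      simp only [wc] at this
      exact Fin.lt_def.2 (by omega)
    have h3 : (wc h i, wc h j) ∈ S2 (K := K) h := by
      unfold S2
      rw [Finset.mem_union]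
      left
      exact Finset.mem_image.2 ⟨(i, j), Finset.mem_filter.2 ⟨Finset.mem_univ _, h2⟩, rfl⟩
    have h4 := (hmem _ (Finset.mem_union_right _ h3)).1 hij
    unfold TT at h4
    rw [Finset.mem_union, Finset.mem_image, Finset.mem_image] at h4
    have hj := j.2
    rcases h4 with ⟨⟨i', m'⟩, _, h5⟩ | ⟨⟨i', m'⟩, _, h5⟩
    · have := i'.2
      simp only [wa, wc, Prod.mk.injEq, Fin.mk.injEq] at h5
      omega
    · simp only [wb, wc, Prod.mk.injEq, Fin.mk.injEq] at h5
      omega
  · intro i j hij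
    have h1 := hlt _ _ hij
    have h2 : i < j := by
      have := Fin.lt_def.1 h1
      simp only [wb] at this
      exact Fin.lt_def.2 (by omega)
    have h3 := hS1 (j, i)
    unfold S1f at h3
    rw [if_neg (not_lt.2 h2.le), if_pos h2] at h3
    exact h3 hij
  · intro i m
    rw [← mem_TT_ac h S i m]
    apply hmem
    rw [Finset.mem_union]
    right
    unfold S2
    rw [Finset.mem_union, Finset.mem_union]
    exact Or.inr (Or.inl (Finset.mem_image.2 ⟨(i, m), Finset.mem_univ _, rfl⟩))
  · intro i m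
    rw [← mem_TT_cb h S i m]
    apply hmem
    rw [Finset.mem_union]
    right
    unfold S2
    rw [Finset.mem_union, Finset.mem_union]
    exact Or.inr (Or.inr (Finset.mem_image.2 ⟨(i, m), Finset.mem_univ _, rfl⟩))
  · intro i hi
    have h3 := hS1 (i, i)
    unfold S1f at h3
    rw [if_neg (lt_irrefl _), if_neg (lt_irrefl _)] at h3
    exact h3 hi

end window

end Pool.Agent.H3RD.Lower
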