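import Pool.Agent.H3RD.Lower

/-!
# MP_54f573_pr: probability of the pattern in one of many disjoint windows
-/

set_option autoImplicit false

namespace Pool.Agent.H3RD.Lower

open Filter Topology
open Pool.Agent.W830.RD
open scoped Classical

variable {p : ℝ} {n : ℕ}

theorem pr_congr {A B : Finset (Fin n × Fin n) → Prop} (h : ∀ E, A E ↔ B E) :
    Pr p n A = Pr p n B := by
  have : A = B := funext fun E => propext (h E)
  rw [this]

theorem pr_empty (hI : S_PIND) (hp : 0 < p) (hp1 : p < 1) {e : Fin n × Fin n} (he : e ∈ Om n) :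
    Pr p n (fun E => ¬ e ∈ E ∩ {e}) = 1 - p := by
  have h := (hI p n hp hp1).2.2 {e} (Finset.singleton_subset_iff.2 he)
  rw [Finset.card_singleton, pow_one] at h
  rw [← h]
  apply pr_congr
  intro E
  constructor
  · intro h1
    rw [Finset.eq_empty_iff_forall_notMem]
    intro x hx
    have hx2 := Finset.mem_singleton.1 (Finset.mem_inter.1 hx).2
    subst hx2
    exact h1 hx
  · intro h1
    rw [h1]
    simp

theorem pr_mem (hB : S_PBAS) (hI : S_PIND) (hp : 0 < p) (hp1 : p < 1) {e : Fin n × Fin n}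
    (he : e ∈ Om n) : Pr p n (fun E => e ∈ E ∩ {e}) = p := by
  have h := (hB p n hp hp1).2.2.2.2.1 (fun E => ¬ e ∈ E ∩ {e})
  rw [pr_empty hI hp hp1 he] at h
  have h2 : Pr p n (fun E => e ∈ E ∩ {e}) = Pr p n (fun E => ¬ ¬ e ∈ E ∩ {e}) :=
    pr_congr fun E => not_not.symm
  rw [h2, h]
  ring

theorem pr_inter_eq (hB : S_PBAS) (hI : S_PIND) (hp : 0 < p) (hp1 : p < 1)
    {S T : Finset (Fin n × Fin n)} (hS : S ⊆ Om n) (hT : T ⊆ S) :
    Pr p n (fun E => E ∩ S = T) = ∏ e ∈ S, (if e ∈ T then p else 1 - p) := by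
  have h := (hI p n hp hp1).2.1 (Fin n × Fin n) S (fun e => {e}) (fun e F => (e ∈ F ↔ e ∈ T))
    (fun i _ j _ hij => by simpa using hij)
  have h1 : Pr p n (fun E => E ∩ S = T) =
      Pr p n (fun E => ∀ e ∈ S, (e ∈ E ∩ {e} ↔ e ∈ T)) := by
    apply pr_congr
    intro E
    constructor
    · rintro rfl e he
      simp [he]
    · intro h2
      ext e
      rw [Finset.mem_inter]
      constructor
      · rintro ⟨h3, h4⟩
        exact (h2 e h4).1 (by simp [h3])
      · intro h3
        have h4 := (h2 e (hT h3)).2 h3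
        exact ⟨(Finset.mem_inter.1 h4).1, hT h3⟩
  rw [h1, h]
  apply Finset.prod_congr rfl
  intro e he
  by_cases heT : e ∈ T
  · rw [if_pos heT]
    refine Eq.trans (pr_congr ?_) (pr_mem hB hI hp hp1 (hS he))
    intro E
    simp [heT]
  · rw [if_neg heT]
    refine Eq.trans (pr_congr ?_) (pr_empty hI hp hp1 (hS he))
    intro E
    simp [heT]

/-- lower bound for the probability of the pattern in one window -/
theorem pr_window (hB : S_PBAS) (hI : S_PIND) (hp : 0 < p) (hp1 : p < 1) {v K s : ℕ}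
    (h : v + (2 * K + s) ≤ n) (S : Fin K → Finset (Fin s)) :
    (1 - p) ^ (K ^ 2) * (min p (1 - p)) ^ (s ^ 2 + 2 * (K * s)) ≤
      Pr p n (fun E => E ∩ (S1 h ∪ S2 h) = TT h S) := by
  have hq0 : 0 < 1 - p := by linarith
  have hm0 : 0 < min p (1 - p) := lt_min hp hq0
  have hm1 : min p (1 - p) ≤ 1 := (min_le_left _ _).trans hp1.le
  have hOm : S1 h ∪ S2 h ⊆ Om n := by
    intro e he
    have hin : InW (n := n) (v := v) (K := K) (s := s) e := by
      rcases Finset.mem_union.1 he with h1 | h1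
      · exact S1_in h h1
      · exact S2_in h h1
    unfold Om
    rw [Finset.mem_filter]
    exact ⟨Finset.mem_univ _, Fin.lt_def.2 hin.2.1⟩
  rw [pr_inter_eq hB hI hp hp1 hOm ((TT_sub h S).trans Finset.subset_union_right)]
  have hun : S1 h ∪ S2 (K := K) (s := s) h = S1 h ∪ (S2 h \ S1 h) := by
    rw [Finset.union_sdiff_self_eq_union]
  rw [hun, Finset.prod_union Finset.disjoint_sdiff]
  have h1 : (1 - p) ^ (K ^ 2) ≤ ∏ e ∈ S1 h, (if e ∈ TT h S then p else 1 - p) := by
    have h2 : ∏ e ∈ S1 h, (if e ∈ TT h S then p else 1 - p) = (1 - p) ^ (S1 h).card := by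
      rw [← Finset.prod_const]
      apply Finset.prod_congr rfl
      intro e he
      rw [if_neg (S1_notMem_TT h S he)]
    rw [h2]
    exact pow_le_pow_of_le_one hq0.le (by linarith) (card_S1 h)
  have h2 : (min p (1 - p)) ^ (s ^ 2 + 2 * (K * s)) ≤
      ∏ e ∈ S2 h \ S1 h, (if e ∈ TT h S then p else 1 - p) := by
    have h3 : (min p (1 - p)) ^ (S2 (K := K) (s := s) h \ S1 h).card ≤
        ∏ e ∈ S2 h \ S1 h, (if e ∈ TT h S then p else 1 - p) := by
      rw [← Finset.prod_const]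
      apply Finset.prod_le_prod
      · intro e _
        exact hm0.le
      · intro e _
        split_ifs
        · exact min_le_left _ _
        · exact min_le_right _ _
    refine le_trans ?_ h3
    apply pow_le_pow_of_le_one hm0.le hm1
    exact (Finset.card_le_card Finset.sdiff_subset).trans (card_S2 h)
  exact mul_le_mul h1 h2 (by positivity) (le_trans (by positivity) h1)

/-- the lower bound from many disjoint windows -/
theorem pr_lower (hB : S_PBAS) (hI : S_PIND) (hp : 0 < p) (hp1 : p < 1) {K s N : ℕ}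
    (hN : N * (2 * K + s) ≤ n) (S : Fin K → Finset (Fin s))
    (hS : ∀ i j, i ≠ j → ∃ m, m ∈ S i ∧ m ∉ S j) :
    1 - (1 - (1 - p) ^ (K ^ 2) * (min p (1 - p)) ^ (s ^ 2 + 2 * (K * s))) ^ N ≤
      Pr p n (fun E => ∀ k, Rlz (gle E) k → K ≤ k) := by
  set x : ℝ := (1 - p) ^ (K ^ 2) * (min p (1 - p)) ^ (s ^ 2 + 2 * (K * s)) with hx
  set w := 2 * K + s with hw
  have hwin : ∀ u : Fin N, (u : ℕ) * w + (2 * K + s) ≤ n := by
    intro u
    have h1 : ((u : ℕ) + 1) * w ≤ N * w := Nat.mul_le_mul_right _ u.2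
    have h2 : ((u : ℕ) + 1) * w = (u : ℕ) * w + w := by ring
    omega
  have hdis : ∀ i ∈ (Finset.univ : Finset (Fin N)), ∀ j ∈ (Finset.univ : Finset (Fin N)), i ≠ j →
      Disjoint (S1 (hwin i) ∪ S2 (hwin i)) (S1 (hwin j) ∪ S2 (hwin j)) := by
    intro i _ j _ hij
    rw [Finset.disjoint_left]
    intro e he he'
    have h1 : InW (n := n) (v := (i : ℕ) * w) (K := K) (s := s) e := by
      rcases Finset.mem_union.1 he with h1 | h1
      · exact S1_in _ h1
      · exact S2_in _ h1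
    have h2 : InW (n := n) (v := (j : ℕ) * w) (K := K) (s := s) e := by
      rcases Finset.mem_union.1 he' with h1 | h1
      · exact S1_in _ h1
      · exact S2_in _ h1
    unfold InW at h1 h2
    have hne : (i : ℕ) ≠ (j : ℕ) := fun h => hij (Fin.ext h)
    rcases lt_or_gt_of_ne hne with h3 | h3
    · have h4 : ((i : ℕ) + 1) * w ≤ (j : ℕ) * w := Nat.mul_le_mul_right _ h3
      have h5 : ((i : ℕ) + 1) * w = (i : ℕ) * w + w := by ring
      omega
    · have h4 : ((j : ℕ) + 1) * w ≤ (i : ℕ) * w := Nat.mul_le_mul_right _ h3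
      have h5 : ((j : ℕ) + 1) * w = (j : ℕ) * w + w := by ring
      omega
  have hprod := (hI p n hp hp1).2.1 (Fin N) Finset.univ
    (fun u => S1 (hwin u) ∪ S2 (hwin u)) (fun u F => ¬ F = TT (hwin u) S) hdis
  obtain ⟨_, hpos, hmono, _, hcompl, _⟩ := hB p n hp hp1
  have hbd : Pr p n (fun E => ∀ u ∈ (Finset.univ : Finset (Fin N)),
      ¬ E ∩ (S1 (hwin u) ∪ S2 (hwin u)) = TT (hwin u) S) ≤ (1 - x) ^ N := by
    rw [hprod]
    have h1 : ∀ u ∈ (Finset.univ : Finset (Fin N)),
        Pr p n (fun E => ¬ E ∩ (S1 (hwin u) ∪ S2 (hwin u)) = TT (hwin u) S) ≤ 1 - x := by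
      intro u _
      rw [hcompl (fun E => E ∩ (S1 (hwin u) ∪ S2 (hwin u)) = TT (hwin u) S)]
      have := pr_window hB hI hp hp1 (hwin u) S
      linarith
    calc _ ≤ ∏ _u ∈ (Finset.univ : Finset (Fin N)), (1 - x) :=
          Finset.prod_le_prod (fun u _ => hpos _) h1
      _ = (1 - x) ^ N := by simp
  have h2 := hcompl (fun E => ∀ u ∈ (Finset.univ : Finset (Fin N)),
      ¬ E ∩ (S1 (hwin u) ∪ S2 (hwin u)) = TT (hwin u) S)
  have h3 : Pr p n (fun E => ¬ ∀ u ∈ (Finset.univ : Finset (Fin N)),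
      ¬ E ∩ (S1 (hwin u) ∪ S2 (hwin u)) = TT (hwin u) S) ≤
      Pr p n (fun E => ∀ k, Rlz (gle E) k → K ≤ k) := by
    apply hmono
    intro E hE h4 k hk
    push Not at h4
    obtain ⟨u, _, hu⟩ := h4
    exact pat_dim hE hS (pat_of (hwin u) hE S hu) hk
  linarith

/-- a family of pairwise incomparable subsets -/
theorem exists_family (r : ℕ) : ∃ S : Fin (r ^ 2) → Finset (Fin (2 * r)),
    ∀ i j, i ≠ j → ∃ m, m ∈ S i ∧ m ∉ S j := by
  rcases Nat.eq_zero_or_pos r with rfl | hr
  · refine ⟨fun _ => ∅, fun i => ?_⟩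
    exact absurd i.2 (by simp)
  have hdiv : ∀ i : Fin (r ^ 2), (i : ℕ) / r < r := by
    intro i
    rw [Nat.div_lt_iff_lt_mul hr, ← pow_two]
    exact i.2
  have hmod : ∀ i : Fin (r ^ 2), (i : ℕ) % r < r := fun i => Nat.mod_lt _ hr
  let c1 : Fin (r ^ 2) → Fin (2 * r) := fun i => ⟨(i : ℕ) / r, by have := hdiv i; omega⟩
  let c2 : Fin (r ^ 2) → Fin (2 * r) := fun i => ⟨r + (i : ℕ) % r, by have := hmod i; omega⟩
  refine ⟨fun i => {c1 i, c2 i}, ?_⟩
  intro i j hij
  by_cases h1 : (i : ℕ) / r = (j : ℕ) / r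
  · have h2 : (i : ℕ) % r ≠ (j : ℕ) % r := by
      intro h2
      apply hij
      apply Fin.ext
      rw [← Nat.div_add_mod (i : ℕ) r, ← Nat.div_add_mod (j : ℕ) r, h1, h2]
    refine ⟨c2 i, by simp, ?_⟩
    simp only [Finset.mem_insert, Finset.mem_singleton, not_or]
    constructor
    · intro h3
      have h4 := congrArg Fin.val h3
      have h5 := hdiv j
      simp only [c1, c2] at h4
      omega
    · intro h3
      have h4 := congrArg Fin.val h3
      simp only [c2] at h4
      omega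
  · refine ⟨c1 i, by simp, ?_⟩
    simp only [Finset.mem_insert, Finset.mem_singleton, not_or]
    constructor
    · intro h3
      have h4 := congrArg Fin.val h3
      simp only [c1] at h4
      exact h1 h4
    · intro h3
      have h4 := congrArg Fin.val h3
      have h5 := hdiv i
      simp only [c1, c2] at h4
      omega

end Pool.Agent.H3RD.Lower
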