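import Pool.Agent.H3RD.W830.RD.All

/-!
# MP_54f573_pr: polynomial rate for the dimension of random graph orders
-/

set_option autoImplicit false

namespace Pool.Agent.H3RD.Rate

open Finset Filter Topology
open Pool.Agent.W830.RD
open Pool.Agent.W32.RD.Post (gap_of pow_bd)
open Pool.Agent.W298.RD.Asym (ev_aux bound)
open Pool.Agent.W465.RD.Fin (num occ1_le occ2_le nat_bound)
open scoped Classical

theorem post_rate (hB : S_PBAS) (hG : S_LPG) (hF : S_FARP) (hL : S_LPP) (hW : S_WIN)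
    (p : ℝ) (hp0 : 0 < p) (hp1 : p < 1) :
    ∃ c : ℕ, 1 ≤ c ∧ ∀ n : ℕ, 1 ≤ n →
      1 - 3 / (n : ℝ) ≤ Pr p n (fun E => Gap (c * (⌈Real.log n⌉₊ + 1) ^ 2) E) := by
  obtain ⟨κ, hκ0, hκ1, hκ⟩ := hL p hp0 hp1
  set c1 : ℕ := ⌈3 / p⌉₊ with hc1
  set c2 : ℕ := ⌈2 / κ⌉₊ with hc2
  have hc1' : (3 : ℝ) ≤ p * c1 := by
    have h := Nat.le_ceil (3 / p)
    rw [div_le_iff₀ hp0] at h
    rw [mul_comm]; exact h
  have hc2' : (2 : ℝ) ≤ κ * c2 := by
    have h := Nat.le_ceil (2 / κ)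
    rw [div_le_iff₀ hκ0] at h
    rw [mul_comm]; exact h
  have hc2p : 1 ≤ c2 := Nat.one_le_ceil_iff.2 (by positivity)
  refine ⟨c2 * (2 * c1 + 1), Nat.mul_pos hc2p (by omega), ?_⟩
  -- the main bound
  have hbd : ∀ n : ℕ, 1 ≤ n →
      1 - 3 / (n : ℝ) ≤ Pr p n (fun E => Gap (c2 * (2 * c1 + 1) * (⌈Real.log n⌉₊ + 1) ^ 2) E) ∧
      Pr p n (fun E => Gap (c2 * (2 * c1 + 1) * (⌈Real.log n⌉₊ + 1) ^ 2) E) ≤ 1 := by
    intro n hn
    obtain ⟨-, b2, b3, b4, b5, b6⟩ := hB p n hp0 hp1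
    have hn0 : (0 : ℝ) < n := by exact_mod_cast hn
    set l : ℕ := ⌈Real.log n⌉₊ + 1 with hl
    have hl1 : 1 ≤ l := by omega
    have hll : Real.log n ≤ l := by
      have h := Nat.le_ceil (Real.log n)
      rw [hl]; push_cast; linarith
    set L : ℕ := c1 * l with hLd
    set R : ℕ := c2 * l with hRd
    have hR1 : 1 ≤ R := Nat.mul_pos hc2p hl1
    have hcc : R * (2 * L + 1) ≤ c2 * (2 * c1 + 1) * l ^ 2 := by
      rw [hRd, hLd]
      calc c2 * l * (2 * (c1 * l) + 1) ≤ c2 * l * (2 * (c1 * l) + l) :=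
            Nat.mul_le_mul_left _ (by omega)
        _ = c2 * (2 * c1 + 1) * l ^ 2 := by ring
    have e1 := b5 (fun E => Gap (c2 * (2 * c1 + 1) * l ^ 2) E)
    have hn1 : Pr p n (fun E => ¬ Gap (c2 * (2 * c1 + 1) * l ^ 2) E) ≤ 3 / n := by
      have s1 : Pr p n (fun E => ¬ Gap (c2 * (2 * c1 + 1) * l ^ 2) E) ≤
          Pr p n (fun E => ¬ Far L E ∨
            ∃ v ∈ (range n).filter (fun v => v + R * (2 * L + 1) ≤ n),
              ∀ i < R, ¬ LPost L E (v + i * (2 * L + 1) + L)) := by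
        refine b3 _ _ fun E hE hng => ?_
        by_contra hcon
        push Not at hcon
        obtain ⟨hf, hp⟩ := hcon
        exact hng (gap_of hG E hE hR1 hcc hf hp)
      have s2 := b4 (fun E => ¬ Far L E) (fun E =>
            ∃ v ∈ (range n).filter (fun v => v + R * (2 * L + 1) ≤ n),
              ∀ i < R, ¬ LPost L E (v + i * (2 * L + 1) + L))
      have s3 := b6 ℕ ((range n).filter (fun v => v + R * (2 * L + 1) ≤ n))
        (fun v E => ∀ i < R, ¬ LPost L E (v + i * (2 * L + 1) + L))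
      have s4 : ∑ v ∈ (range n).filter (fun v => v + R * (2 * L + 1) ≤ n),
          Pr p n (fun E => ∀ i < R, ¬ LPost L E (v + i * (2 * L + 1) + L)) ≤
          n * (1 - κ) ^ R := by
        have hk0 : 0 ≤ (1 - κ) ^ R := pow_nonneg (by linarith) _
        calc _ ≤ ∑ v ∈ (range n).filter (fun v => v + R * (2 * L + 1) ≤ n), (1 - κ) ^ R :=
              sum_le_sum fun v hv => hW p κ hp0 hp1 hκ0 hκ1 hκ n L R v (mem_filter.1 hv).2
          _ = (((range n).filter (fun v => v + R * (2 * L + 1) ≤ n)).card : ℝ) * (1 - κ) ^ R := by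
              rw [sum_const, nsmul_eq_mul]
          _ ≤ n * (1 - κ) ^ R := by
              refine mul_le_mul_of_nonneg_right ?_ hk0
              have : ((range n).filter (fun v => v + R * (2 * L + 1) ≤ n)).card ≤ n := by
                calc _ ≤ (range n).card := card_filter_le _ _
                  _ = n := card_range n
              exact_mod_cast this
      have s5 := hF p n L hp0 hp1
      have s6 : (1 - p) ^ L * (n : ℝ) ^ 3 ≤ 1 :=
        pow_bd hp0.le hp1.le (k := 3) (by exact_mod_cast hc1') hn hll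
      have s7 : (1 - κ) ^ R * (n : ℝ) ^ 2 ≤ 1 :=
        pow_bd hκ0.le hκ1 (k := 2) (by exact_mod_cast hc2') hn hll
      have s8 : 2 * (n : ℝ) ^ 2 * (1 - p) ^ L ≤ 2 / n := by
        rw [le_div_iff₀ hn0]
        nlinarith
      have s9 : (n : ℝ) * (1 - κ) ^ R ≤ 1 / n := by
        rw [le_div_iff₀ hn0]
        nlinarith
      have s10 : (2 : ℝ) / n + 1 / n = 3 / n := by
        rw [← add_div]; norm_num
      linarith
    have hge := b2 (fun E => ¬ Gap (c2 * (2 * c1 + 1) * l ^ 2) E)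
    constructor <;> linarith
  exact fun n hn => (hbd n hn).1

theorem asym_rate (p δ : ℝ) (A c : ℕ) (hp0 : 0 < p) (hp1 : p < 1) (hδ : 0 < δ) :
    ∀ᶠ n : ℕ in atTop, (n : ℝ) *
    (((2 * (c * (⌈Real.log n⌉₊ + 1) ^ 2) : ℕ) : ℝ) +
      A * (⌈Real.sqrt (Real.log n / Real.log (1 / (1 - p)))⌉₊ + 1)) ^
      (A * (⌈Real.sqrt (Real.log n / Real.log (1 / (1 - p)))⌉₊ + 1)) *
    (1 - p) ^ ⌈(1 + δ) * (Real.log n / Real.log (1 / (1 - p)))⌉₊ ≤
      Real.exp (-(δ / 2) * Real.log n) := by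
  obtain ⟨L, hL⟩ : ∃ L, L = Real.log (1 / (1 - p)) := ⟨_, rfl⟩
  have hL0 : 0 < L := by
    rw [hL]
    apply Real.log_pos
    rw [lt_div_iff₀ (by linarith)]
    linarith
  rw [← hL]
  have hev : ∀ᶠ x : ℝ in atTop, Real.exp x * (((2 * (c * (⌈x⌉₊ + 1) ^ 2) : ℕ) : ℝ) +
      A * (⌈Real.sqrt (x / L)⌉₊ + 1)) ^
      (A * (⌈Real.sqrt (x / L)⌉₊ + 1)) *
    (1 - p) ^ ⌈(1 + δ) * (x / L)⌉₊ ≤ Real.exp (-(δ / 2) * x) := by
    filter_upwards [ev_aux ((A : ℝ) * (1 / Real.sqrt L + 2)) δ (by positivity) hδ,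
      eventually_ge_atTop (1 : ℝ),
      eventually_ge_atTop (18 * (c : ℝ) + A * (1 / Real.sqrt L + 2))] with x h1 h2 h3
    exact bound p δ A c hp0 hp1 hδ L hL hL0 x h2 h3 h1
  have hG := (Real.tendsto_log_atTop.comp tendsto_natCast_atTop_atTop).eventually hev
  filter_upwards [hG, eventually_ge_atTop 1] with n h1 hn
  have hn0 : (0 : ℝ) < n := by exact_mod_cast hn
  simp only [Function.comp_apply] at h1
  rw [Real.exp_log hn0] at h1
  exact h1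

theorem rate_aux (hP : S_PAT) (hD : S_DET) (hU : S_UB) (hC : S_PCARD)
    (hB : S_PBAS) (p : ℝ) (hp : 0 < p) (hp1 : p < 1)
    (hT : ∃ c : ℕ, 1 ≤ c ∧ ∀ n : ℕ, 1 ≤ n →
      1 - 3 / (n : ℝ) ≤ Pr p n (fun E => Gap (c * (⌈Real.log n⌉₊ + 1) ^ 2) E))
    (ε : ℝ) (hε : 0 < ε) :
    ∃ e : ℝ, 0 < e ∧ e ≤ 1 ∧ ∀ᶠ n : ℕ in atTop,
      1 - 3 / (n : ℝ) - Real.exp (-(e / 8 / 2) * Real.log n) ≤ Pr p n (fun E => ∃ k : ℕ,
        (k : ℝ) ≤ (1 + ε) * Real.sqrt (Real.log (n : ℝ) / Real.log (1 / (1 - p))) ∧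
        Rlz (gle E) k) := by
  obtain ⟨e, he, he1, heε⟩ : ∃ e : ℝ, 0 < e ∧ e ≤ 1 ∧ e ≤ ε :=
    ⟨min ε 1, lt_min hε one_pos, min_le_right _ _, min_le_left _ _⟩
  obtain ⟨c, hc, hgap⟩ := hT
  obtain ⟨K, hK⟩ : ∃ K : ℕ, 8 / (e / 8) ^ 2 ≤ (K : ℝ) := ⟨_, Nat.le_ceil _⟩
  obtain ⟨t, Pi, hPi⟩ := hP K
  have hlam : 0 < Real.log (1 / (1 - p)) := by
    apply Real.log_pos
    rw [lt_div_iff₀ (by linarith)]
    linarith
  have has := asym_rate p (e / 8) (5 + 2 * K + 2 * (t * K)) c hp hp1 (by positivity)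
  have hd : Tendsto (fun n : ℕ => Real.sqrt (Real.log n / Real.log (1 / (1 - p)))) atTop atTop :=
    Real.tendsto_sqrt_atTop.comp
      ((Real.tendsto_log_atTop.comp tendsto_natCast_atTop_atTop).atTop_div_const hlam)
  have hev := hd.eventually_ge_atTop (max 16 ((16 + 4 * (K : ℝ)) / e))
  refine ⟨e, he, he1, ?_⟩
  · filter_upwards [hev, has, eventually_ge_atTop 1] with n hn hasn hn1
    have hgapn := hgap n hn1
    obtain ⟨_, hpos, hmono, hor, _, _⟩ := hB p n hp hp1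
    set d := Real.sqrt (Real.log n / Real.log (1 / (1 - p))) with hd_def
    have hd2 : d ^ 2 = Real.log n / Real.log (1 / (1 - p)) :=
      Real.sq_sqrt (div_nonneg (Real.log_natCast_nonneg n) hlam.le)
    have hd16 : 16 ≤ d := (le_max_left _ _).trans hn
    have hed : 16 + 4 * (K : ℝ) ≤ e * d := by
      have h1 := (le_max_right _ _).trans hn
      rw [div_le_iff₀ he] at h1
      linarith
    obtain ⟨n1, n2, n3, n4, n5, n6, n7, n8⟩ := num e he he1 K hK d hd16 hed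
    rw [hd2] at n2 n5 n6
    set g := ⌈e / 8 * d⌉₊ with hg_def
    set N0 := ⌊(1 + e / 2) * d⌋₊ with hN0_def
    set T2 := ⌈(1 + e / 8) * (Real.log n / Real.log (1 / (1 - p)))⌉₊ with hT2_def
    set m := c * (⌈Real.log n⌉₊ + 1) ^ 2 with hm_def
    have hm : 1 ≤ m := Nat.mul_pos hc (by positivity)
    have hcard : T2 ≤ (pat1 K g).card := by
      have := hC.1 K g
      omega
    have hk : ((⌊(1 + e) * d⌋₊ : ℕ) : ℝ) ≤ (1 + ε) * d := by
      refine (Nat.floor_le (by positivity)).trans ?_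
      exact mul_le_mul_of_nonneg_right (by linarith) (by linarith)
    have h1 : Pr p n (fun E => Gap m E) ≤ Pr p n (fun E => (∃ k : ℕ, (k : ℝ) ≤ (1 + ε) * d ∧
        Rlz (gle E) k) ∨ (Occ (2 * m) (K * g) (pat1 K g) E ∨ Occ2 K Pi (2 * m) g N0 T2 E)) := by
      apply hmono
      intro E hE hG
      by_cases h1 : Occ (2 * m) (K * g) (pat1 K g) E
      · exact Or.inr (Or.inl h1)
      by_cases h2 : Occ2 K Pi (2 * m) g N0 T2 E
      · exact Or.inr (Or.inr h2)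
      exact Or.inl ⟨_, hk, hD K t Pi hPi n m g N0 ⌈d⌉₊ T2 _ E hE hm hG n1 h1 h2 n2 n3 n4⟩
    have h2 := hor (fun E => ∃ k : ℕ, (k : ℝ) ≤ (1 + ε) * d ∧ Rlz (gle E) k)
      (fun E => Occ (2 * m) (K * g) (pat1 K g) E ∨ Occ2 K Pi (2 * m) g N0 T2 E)
    have h3 := hor (fun E => Occ (2 * m) (K * g) (pat1 K g) E)
      (fun E => Occ2 K Pi (2 * m) g N0 T2 E)
    have h4 := occ1_le hU p hp hp1 n (2 * m) K g T2 n6 hcard
    have h5 := occ2_le hU hB p hp hp1 n (2 * m) g N0 T2 K t Pi hPi n6 (by omega)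
    have h6 : (((2 * m : ℕ) : ℝ) ^ (K * g) + ((K * g + 1 : ℕ) : ℝ) ^ 2 *
        (((2 * m : ℕ) : ℝ) ^ (N0 + 1 + 2 * (K * g)) *
          ((K * g + 2 : ℕ) : ℝ) ^ (2 * (t * (K * g))))) ≤
        (((2 * m : ℕ) : ℝ) + ((5 + 2 * K + 2 * (t * K) : ℕ) : ℝ) * ((⌈d⌉₊ : ℝ) + 1)) ^
          ((5 + 2 * K + 2 * (t * K)) * (⌈d⌉₊ + 1)) := by
      have h7 := nat_bound (2 * m) g N0 K t ⌈d⌉₊ n7 n8
      exact_mod_cast h7
    have hq : (0 : ℝ) ≤ (1 - p) ^ T2 := pow_nonneg (by linarith) _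
    have h7 : (n : ℝ) * (((2 * m : ℕ) : ℝ) ^ (K * g) + ((K * g + 1 : ℕ) : ℝ) ^ 2 *
        (((2 * m : ℕ) : ℝ) ^ (N0 + 1 + 2 * (K * g)) *
          ((K * g + 2 : ℕ) : ℝ) ^ (2 * (t * (K * g))))) * (1 - p) ^ T2 ≤
        n * (((2 * m : ℕ) : ℝ) + ((5 + 2 * K + 2 * (t * K) : ℕ) : ℝ) * ((⌈d⌉₊ : ℝ) + 1)) ^
          ((5 + 2 * K + 2 * (t * K)) * (⌈d⌉₊ + 1)) * (1 - p) ^ T2 :=
      mul_le_mul_of_nonneg_right (mul_le_mul_of_nonneg_left h6 n.cast_nonneg) hq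
    have h8 : (n : ℝ) * ((2 * m : ℕ) : ℝ) ^ (K * g) * (1 - p) ^ T2 +
        ((K * g + 1 : ℕ) : ℝ) ^ 2 * (n * ((2 * m : ℕ) : ℝ) ^ (N0 + 1 + 2 * (K * g)) *
          ((K * g + 2 : ℕ) : ℝ) ^ (2 * (t * (K * g))) * (1 - p) ^ T2) =
        (n : ℝ) * (((2 * m : ℕ) : ℝ) ^ (K * g) + ((K * g + 1 : ℕ) : ℝ) ^ 2 *
        (((2 * m : ℕ) : ℝ) ^ (N0 + 1 + 2 * (K * g)) *
          ((K * g + 2 : ℕ) : ℝ) ^ (2 * (t * (K * g))))) * (1 - p) ^ T2 := by ring
    linarith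

theorem rate_pow (p : ℝ) (hp : 0 < p) (hp1 : p < 1) (ε : ℝ) (hε : 0 < ε) :
    ∃ η : ℝ, 0 < η ∧ ∀ᶠ n : ℕ in atTop,
      1 - (n : ℝ) ^ (-η) ≤ Pr p n (fun E => ∃ k : ℕ,
        (k : ℝ) ≤ (1 + ε) * Real.sqrt (Real.log (n : ℝ) / Real.log (1 / (1 - p))) ∧
        Rlz (gle E) k) := by
  obtain ⟨e, he, he1, hev⟩ := rate_aux Pool.Agent.W830.RD.Glue.pat Pool.Agent.W830.RD.Glue.det
    Pool.Agent.W830.RD.Glue.ub Pool.Agent.W830.RD.Glue.pcard Pool.Agent.W830.RD.Glue.pbas p hp hp1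
    (post_rate Pool.Agent.W830.RD.Glue.pbas Pool.Agent.W830.RD.Glue.lpg
      Pool.Agent.W830.RD.Glue.farp Pool.Agent.W830.RD.Glue.lpp Pool.Agent.W830.RD.Glue.win
      p hp hp1) ε hε
  refine ⟨e / 32, by positivity, ?_⟩
  have hlog := (Real.tendsto_log_atTop.comp tendsto_natCast_atTop_atTop).eventually_ge_atTop
    (32 * Real.log 4 / e)
  filter_upwards [hev, hlog, eventually_ge_atTop 1] with n h1 h2 hn
  simp only [Function.comp_apply] at h2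
  have hn0 : (0 : ℝ) < n := by exact_mod_cast hn
  set x := Real.log n with hx
  have hx0 : 0 ≤ x := Real.log_nonneg (by exact_mod_cast hn)
  have e1 : (n : ℝ) ^ (-(e / 32)) = Real.exp (-(e / 32) * x) := by
    rw [Real.rpow_def_of_pos hn0, ← hx, mul_comm]
  have e2 : 3 / (n : ℝ) ≤ 3 * Real.exp (-(e / 16) * x) := by
    have h3 : (n : ℝ) = Real.exp x := (Real.exp_log hn0).symm
    rw [h3, div_eq_mul_inv, ← Real.exp_neg]
    apply mul_le_mul_of_nonneg_left _ (by norm_num)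
    apply Real.exp_le_exp.2
    nlinarith
  have e3 : Real.exp (-(e / 16) * x) = Real.exp (-(e / 32) * x) * Real.exp (-(e / 32) * x) := by
    rw [← Real.exp_add]
    congr 1
    ring
  have e4 : Real.exp (-(e / 32) * x) ≤ 1 / 4 := by
    rw [div_le_iff₀ he] at h2
    have h5 : Real.log 4 ≤ (e / 32) * x := by linarith
    have h6 : Real.exp (-(e / 32) * x) ≤ Real.exp (-Real.log 4) :=
      Real.exp_le_exp.2 (by linarith)
    rw [Real.exp_neg, Real.exp_log (by norm_num)] at h6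
    linarith
  have e5 : -(e / 8 / 2) * x = -(e / 16) * x := by ring
  rw [e5] at h1
  rw [e1]
  have e6 := Real.exp_pos (-(e / 32) * x)
  nlinarith

end Pool.Agent.H3RD.Rate
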