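import Mathlib
import Pool.Agent.H3RD.W830.RD.Stm

/-!
# MP_54f573_pr: from a polynomial rate to the strong law for the infinite random graph order
-/

set_option autoImplicit false

namespace Pool.Agent.H3RD.Strong

open MeasureTheory ProbabilityTheory Filter Topology
open Pool.Agent.W830.RD
open scoped Classical ENNReal

section deterministic

variable {Ω : Type*}

/-- the edges present among `0, …, n - 1` at the sample point `ω` -/
noncomputable def EE (A : ℕ → ℕ → Set Ω) (n : ℕ) (ω : Ω) : Finset (Fin n × Fin n) :=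
  (Om n).filter (fun e => ω ∈ A e.1 e.2)

theorem mem_EE {A : ℕ → ℕ → Set Ω} {n : ℕ} {ω : Ω} {e : Fin n × Fin n} :
    e ∈ EE A n ω ↔ e.1 < e.2 ∧ ω ∈ A e.1 e.2 := by
  unfold EE Om
  simp

/-- the relation generating the random graph order on `0, …, n - 1` -/
def rel (A : ℕ → ℕ → Set Ω) (n : ℕ) (ω : Ω) (a b : Fin n) : Prop := a < b ∧ ω ∈ A a b

theorem gle_iff {A : ℕ → ℕ → Set Ω} {n : ℕ} {ω : Ω} (x y : Fin n) :
    gle (EE A n ω) x y ↔ Relation.ReflTransGen (rel A n ω) x y := by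
  unfold gle
  have : (fun a b : Fin n => (a, b) ∈ EE A n ω) = rel A n ω := by
    funext a b
    exact propext mem_EE
  rw [this]

theorem rtg_back {A : ℕ → ℕ → Set Ω} {n m : ℕ} (h : n ≤ m) {ω : Ω} (y : Fin n) (x' : Fin m)
    (hx : Relation.ReflTransGen (rel A m ω) x' (Fin.castLE h y)) :
    ∃ hx : (x' : ℕ) < n, Relation.ReflTransGen (rel A n ω) ⟨x', hx⟩ y := by
  induction hx using Relation.ReflTransGen.head_induction_on with
  | refl => exact ⟨y.2, Relation.ReflTransGen.refl⟩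
  | head h1 _ ih =>
    obtain ⟨hc, hp⟩ := ih
    have hlt := lt_trans (Fin.lt_def.1 h1.1) hc
    exact ⟨hlt, Relation.ReflTransGen.head ⟨Fin.lt_def.2 (Fin.lt_def.1 h1.1), h1.2⟩ hp⟩

theorem rtg_iff {A : ℕ → ℕ → Set Ω} {n m : ℕ} (h : n ≤ m) {ω : Ω} (x y : Fin n) :
    Relation.ReflTransGen (rel A n ω) x y ↔
      Relation.ReflTransGen (rel A m ω) (Fin.castLE h x) (Fin.castLE h y) := by
  constructor
  · intro hp
    have h1 : rel A n ω ≤ fun a b => rel A m ω (Fin.castLE h a) (Fin.castLE h b) :=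
      fun a b hab => ⟨Fin.lt_def.2 (Fin.lt_def.1 hab.1), hab.2⟩
    exact Relation.ReflTransGen.lift (Fin.castLE h) h1 _ _ hp
  · intro hp
    obtain ⟨hx, h2⟩ := rtg_back h y _ hp
    exact h2

/-- realisers restrict -/
theorem rlz_mono {A : ℕ → ℕ → Set Ω} {n m k : ℕ} (h : n ≤ m) {ω : Ω}
    (hr : Rlz (gle (EE A m ω)) k) :
    ∃ f : Fin k → Fin n → ℕ, (∀ i, Function.Injective (f i)) ∧
      ∀ x y : Fin n, (Relation.ReflTransGen (rel A n ω) x y ↔ ∀ i, f i x ≤ f i y) := by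
  obtain ⟨f, hf, hr⟩ := hr
  refine ⟨fun i x => f i (Fin.castLE h x), fun i => (hf i).comp (Fin.castLE_injective h), ?_⟩
  intro x y
  rw [rtg_iff h, ← gle_iff]
  exact hr _ _

end deterministic

section prob

variable {Ω : Type*} [MeasurableSpace Ω] {μ : Measure Ω}

/-- the possible edges of the infinite graph -/
abbrev Ed := {e : ℕ × ℕ // e.1 < e.2}

/-- the embedding of the possible edges of the finite graph -/
def emb (n : ℕ) (e : {e : Fin n × Fin n // e ∈ Om n}) : Ed :=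
  ⟨((e.1.1 : ℕ), (e.1.2 : ℕ)), by
    have := e.2
    unfold Om at this
    rw [Finset.mem_filter] at this
    exact Fin.lt_def.1 this.2⟩

theorem emb_injective (n : ℕ) : Function.Injective (emb n) := by
  intro a b hab
  have h1 := congrArg (fun e : Ed => e.1.1) hab
  have h2 := congrArg (fun e : Ed => e.1.2) hab
  apply Subtype.ext
  apply Prod.ext
  · exact Fin.ext h1
  · exact Fin.ext h2

theorem measurable_EE {A : ℕ → ℕ → Set Ω} (hA : ∀ i j, i < j → MeasurableSet (A i j)) (n : ℕ)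
    (E : Finset (Fin n × Fin n)) : MeasurableSet {ω | EE A n ω = E} := by
  have h1 : {ω | EE A n ω = E} = ⋂ e : Fin n × Fin n, {ω | e ∈ EE A n ω ↔ e ∈ E} := by
    ext ω
    simp only [Set.mem_ofPred_eq, Set.mem_iInter, Finset.ext_iff]
  rw [h1]
  apply MeasurableSet.iInter
  intro e
  by_cases hlt : e.1 < e.2
  · by_cases he : e ∈ E
    · have : {ω | e ∈ EE A n ω ↔ e ∈ E} = A e.1 e.2 := by
        ext ω
        simp only [Set.mem_ofPred_eq, mem_EE, he, hlt, iff_true, true_and]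
      rw [this]
      exact hA _ _ hlt
    · have : {ω | e ∈ EE A n ω ↔ e ∈ E} = (A e.1 e.2)ᶜ := by
        ext ω
        simp only [Set.mem_ofPred_eq, mem_EE, he, hlt, iff_false, true_and, Set.mem_compl_iff]
      rw [this]
      exact (hA _ _ hlt).compl
  · by_cases he : e ∈ E
    · have : {ω | e ∈ EE A n ω ↔ e ∈ E} = ∅ := by
        ext ω
        simp only [Set.mem_ofPred_eq, mem_EE, he, hlt, false_and, iff_true,
          Set.mem_empty_iff_false]
      rw [this]
      exact MeasurableSet.empty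
    · have : {ω | e ∈ EE A n ω ↔ e ∈ E} = Set.univ := by
        ext ω
        simp only [Set.mem_ofPred_eq, mem_EE, he, hlt, false_and, Set.mem_univ]
      rw [this]
      exact MeasurableSet.univ

theorem meas_eq {A : ℕ → ℕ → Set Ω} {p : ℝ} (hp : 0 < p) (hp1 : p < 1)
    [IsProbabilityMeasure μ]
    (hA : ∀ i j, i < j → MeasurableSet (A i j))
    (hind : iIndepSet (fun e : Ed => A e.1.1 e.1.2) μ)
    (hμ : ∀ i j, i < j → μ (A i j) = ENNReal.ofReal p) (n : ℕ)
    {E : Finset (Fin n × Fin n)} (hE : E ⊆ Om n) :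
    μ {ω | EE A n ω = E} =
      ENNReal.ofReal (p ^ E.card * (1 - p) ^ ((Om n).card - E.card)) := by
  let f : {e : Fin n × Fin n // e ∈ Om n} → Set Ω := fun e =>
    if e.1 ∈ E then A e.1.1 e.1.2 else (A e.1.1 e.1.2)ᶜ
  have hlt : ∀ e : {e : Fin n × Fin n // e ∈ Om n}, (e.1.1 : ℕ) < (e.1.2 : ℕ) := by
    intro e
    exact (emb n e).2
  have h1 : {ω | EE A n ω = E} = ⋂ e, f e := by
    ext ω
    simp only [Set.mem_ofPred_eq, Set.mem_iInter]
    constructor
    · rintro h e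
      show ω ∈ (if e.1 ∈ E then A e.1.1 e.1.2 else (A e.1.1 e.1.2)ᶜ)
      split_ifs with he
      · rw [← h, mem_EE] at he
        exact he.2
      · rw [← h, mem_EE] at he
        intro hc
        exact he ⟨Fin.lt_def.2 (hlt e), hc⟩
    · intro h
      ext e
      rw [mem_EE]
      constructor
      · rintro ⟨h2, h3⟩
        by_contra he
        have h4 := h ⟨e, by unfold Om; rw [Finset.mem_filter]; exact ⟨Finset.mem_univ _, h2⟩⟩
        have h5 : ω ∈ (if e ∈ E then A e.1 e.2 else (A e.1 e.2)ᶜ) := h4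
        rw [if_neg he] at h5
        exact h5 h3
      · intro he
        have h4 := h ⟨e, hE he⟩
        have h5 : ω ∈ (if e ∈ E then A e.1 e.2 else (A e.1 e.2)ᶜ) := h4
        rw [if_pos he] at h5
        have h6 := hE he
        unfold Om at h6
        rw [Finset.mem_filter] at h6
        exact ⟨h6.2, h5⟩
  have h2 : iIndep ((fun e : Ed => MeasurableSpace.generateFrom {A e.1.1 e.1.2}) ∘ emb n) μ :=
    iIndep.precomp (emb_injective n) hind
  have h3 : μ (⋂ e, f e) = ∏ e, μ (f e) := by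
    apply iIndep.meas_iInter h2
    intro e
    show MeasurableSet[MeasurableSpace.generateFrom {A e.1.1 e.1.2}]
      (if e.1 ∈ E then A e.1.1 e.1.2 else (A e.1.1 e.1.2)ᶜ)
    have h4 : MeasurableSet[MeasurableSpace.generateFrom {A e.1.1 e.1.2}] (A e.1.1 e.1.2) :=
      MeasurableSpace.measurableSet_generateFrom (Set.mem_singleton _)
    split_ifs
    · exact h4
    · exact h4.compl
  have h4 : ∀ e, μ (f e) = if e.1 ∈ E then ENNReal.ofReal p else ENNReal.ofReal (1 - p) := by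
    intro e
    show μ (if e.1 ∈ E then A e.1.1 e.1.2 else (A e.1.1 e.1.2)ᶜ) = _
    split_ifs
    · exact hμ _ _ (hlt e)
    · rw [prob_compl_eq_one_sub (hA _ _ (hlt e)), hμ _ _ (hlt e),
        ENNReal.ofReal_sub _ hp.le, ENNReal.ofReal_one]
  rw [h1, h3, Finset.prod_congr rfl (fun e _ => h4 e)]
  have h5 : ∏ e : {e : Fin n × Fin n // e ∈ Om n},
      (if e.1 ∈ E then ENNReal.ofReal p else ENNReal.ofReal (1 - p)) =
      ∏ e ∈ Om n, (if e ∈ E then ENNReal.ofReal p else ENNReal.ofReal (1 - p)) :=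
    Finset.prod_coe_sort (Om n) (fun e => if e ∈ E then ENNReal.ofReal p
      else ENNReal.ofReal (1 - p))
  rw [h5, Finset.prod_ite, Finset.prod_const, Finset.prod_const]
  have h6 : (Om n).filter (fun e => e ∈ E) = E := by
    ext e
    rw [Finset.mem_filter]
    exact ⟨fun h => h.2, fun h => ⟨hE h, h⟩⟩
  have h7 : (Om n).filter (fun e => e ∉ E) = Om n \ E := by
    ext e
    rw [Finset.mem_filter, Finset.mem_sdiff]
  rw [h6, h7, Finset.card_sdiff_of_subset hE, ENNReal.ofReal_mul (by positivity),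
    ENNReal.ofReal_pow hp.le, ENNReal.ofReal_pow (by linarith)]

theorem meas_event {A : ℕ → ℕ → Set Ω} {p : ℝ} (hp : 0 < p) (hp1 : p < 1)
    [IsProbabilityMeasure μ]
    (hA : ∀ i j, i < j → MeasurableSet (A i j))
    (hind : iIndepSet (fun e : Ed => A e.1.1 e.1.2) μ)
    (hμ : ∀ i j, i < j → μ (A i j) = ENNReal.ofReal p) (n : ℕ)
    (Q : Finset (Fin n × Fin n) → Prop) :
    μ {ω | Q (EE A n ω)} = ENNReal.ofReal (Pr p n Q) := by
  have h1 : {ω | Q (EE A n ω)} =
      ⋃ E ∈ (Om n).powerset.filter Q, {ω | EE A n ω = E} := by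
    ext ω
    simp only [Set.mem_ofPred_eq, Set.mem_iUnion, exists_prop, Finset.mem_filter,
      Finset.mem_powerset]
    constructor
    · intro h
      exact ⟨EE A n ω, ⟨Finset.filter_subset _ _, h⟩, rfl⟩
    · rintro ⟨E, ⟨_, h2⟩, rfl⟩
      exact h2
  rw [h1, measure_biUnion_finset]
  · unfold Pr
    rw [ENNReal.ofReal_sum_of_nonneg]
    · apply Finset.sum_congr rfl
      intro E hE
      rw [Finset.mem_filter, Finset.mem_powerset] at hE
      exact meas_eq hp hp1 hA hind hμ n hE.1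
    · intro E _
      have : (0 : ℝ) ≤ 1 - p := by linarith
      positivity
  · intro E _ E' _ hne
    apply Set.disjoint_left.2
    intro ω h2 h3
    exact hne (h2.symm.trans h3)
  · intro E _
    exact measurable_EE hA n E

theorem bad_le {A : ℕ → ℕ → Set Ω} {p : ℝ} (hp : 0 < p) (hp1 : p < 1) (hB : S_PBAS)
    [IsProbabilityMeasure μ]
    (hA : ∀ i j, i < j → MeasurableSet (A i j))
    (hind : iIndepSet (fun e : Ed => A e.1.1 e.1.2) μ)
    (hμ : ∀ i j, i < j → μ (A i j) = ENNReal.ofReal p) (n : ℕ)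
    (Q : Finset (Fin n × Fin n) → Prop) {t : ℝ} (ht : 1 - t ≤ Pr p n Q) :
    μ {ω | ¬ Q (EE A n ω)} ≤ ENNReal.ofReal t := by
  rw [meas_event hp hp1 hA hind hμ n (fun E => ¬ Q E)]
  apply ENNReal.ofReal_le_ofReal
  have := (hB p n hp hp1).2.2.2.2.1 Q
  rw [this]
  linarith

theorem strong_of_rate {A : ℕ → ℕ → Set Ω} {p : ℝ} (hp : 0 < p) (hp1 : p < 1) (hB : S_PBAS)
    [IsProbabilityMeasure μ]
    (hA : ∀ i j, i < j → MeasurableSet (A i j))
    (hind : iIndepSet (fun e : Ed => A e.1.1 e.1.2) μ)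
    (hμ : ∀ i j, i < j → μ (A i j) = ENNReal.ofReal p)
    {ε η : ℝ} (hε : 0 < ε) (hη : 0 < η)
    (hrate : ∀ᶠ n : ℕ in atTop, 1 - (n : ℝ) ^ (-η) ≤ Pr p n (fun E => ∃ k : ℕ,
      (k : ℝ) ≤ (1 + ε / 2) * Real.sqrt (Real.log (n : ℝ) / Real.log (1 / (1 - p))) ∧
      Rlz (gle E) k)) :
    ∀ᵐ ω ∂μ, ∀ᶠ n : ℕ in atTop, ∃ k : ℕ,
      (k : ℝ) ≤ (1 + ε) * Real.sqrt (Real.log (n : ℝ) / Real.log (1 / (1 - p))) ∧
      ∃ f : Fin k → Fin n → ℕ, (∀ i, Function.Injective (f i)) ∧
        ∀ x y : Fin n, (Relation.ReflTransGen (rel A n ω) x y ↔ ∀ i, f i x ≤ f i y) := by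
  have hlam : 0 < Real.log (1 / (1 - p)) := by
    apply Real.log_pos
    rw [lt_div_iff₀ (by linarith)]
    linarith
  obtain ⟨N0, hN0⟩ := eventually_atTop.1 hrate
  set r : ℝ := (2 : ℝ) ^ (-η) with hr
  have hr0 : 0 < r := Real.rpow_pos_of_pos two_pos _
  have hr1 : r < 1 := Real.rpow_lt_one_of_one_lt_of_neg one_lt_two (by linarith)
  let Q : (n : ℕ) → Finset (Fin n × Fin n) → Prop := fun n E => ∃ k : ℕ,
      (k : ℝ) ≤ (1 + ε / 2) * Real.sqrt (Real.log (n : ℝ) / Real.log (1 / (1 - p))) ∧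
      Rlz (gle E) k
  let s : ℕ → Set Ω := fun k => {ω | ¬ Q (2 ^ (k + N0)) (EE A (2 ^ (k + N0)) ω)}
  have hs : ∀ k, μ (s k) ≤ ENNReal.ofReal (r ^ k) := by
    intro k
    have h1 : N0 ≤ 2 ^ (k + N0) := by
      have := Nat.lt_two_pow_self (n := k + N0)
      omega
    have h2 := hN0 _ h1
    refine (bad_le hp hp1 hB hA hind hμ _ _ h2).trans ?_
    apply ENNReal.ofReal_le_ofReal
    have h3 : (((2 ^ (k + N0) : ℕ)) : ℝ) ^ (-η) = r ^ (k + N0) := by
      rw [hr]
      push_cast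
      rw [← Real.rpow_natCast, ← Real.rpow_natCast, ← Real.rpow_mul (by norm_num),
        ← Real.rpow_mul (by norm_num), mul_comm]
    rw [h3]
    exact pow_le_pow_of_le_one hr0.le hr1.le (by omega)
  have hsum : ∑' k, μ (s k) ≠ ⊤ := by
    apply ne_top_of_le_ne_top _ (ENNReal.tsum_le_tsum hs)
    exact (summable_geometric_of_lt_one hr0.le hr1).tsum_ofReal_ne_top
  filter_upwards [ae_eventually_notMem hsum] with ω hω
  obtain ⟨k1, hk1⟩ := eventually_atTop.1 hω
  set c : ℝ := (1 + ε) ^ 2 - (1 + ε / 2) ^ 2 with hc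
  have hc0 : 0 < c := by
    rw [hc]
    nlinarith
  have hlog := (Real.tendsto_log_atTop.comp tendsto_natCast_atTop_atTop).eventually_ge_atTop
    ((1 + ε / 2) ^ 2 * Real.log 2 / c)
  filter_upwards [hlog, eventually_gt_atTop (2 ^ (k1 + N0)), eventually_ge_atTop 2]
    with n h1 h2 h3
  simp only [Function.comp_apply] at h1
  rw [div_le_iff₀ hc0] at h1
  set K := Nat.clog 2 n with hK
  have hn1 : n ≤ 2 ^ K := Nat.le_pow_clog one_lt_two n
  have hn2 : 2 ^ (K - 1) < n := by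
    have := Nat.pow_pred_clog_lt_self one_lt_two (x := n) (by omega)
    exact this
  have hK1 : k1 + N0 ≤ K := by
    by_contra hcon
    have : 2 ^ K ≤ 2 ^ (k1 + N0) := Nat.pow_le_pow_right (by norm_num) (by omega)
    omega
  have hKpos : 1 ≤ K := by
    by_contra hcon
    have : K = 0 := by omega
    rw [this] at hn1
    simp at hn1
    omega
  have hQ : Q (2 ^ K) (EE A (2 ^ K) ω) := by
    have h4 := hk1 (K - N0) (by omega)
    have h5 : K - N0 + N0 = K := by omega
    have h6 : ¬ ¬ Q (2 ^ (K - N0 + N0)) (EE A (2 ^ (K - N0 + N0)) ω) := h4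
    rw [h5] at h6
    exact not_not.1 h6
  obtain ⟨k, hk, hrl⟩ := hQ
  refine ⟨k, hk.trans ?_, rlz_mono hn1 hrl⟩
  have hnpos : (0 : ℝ) < n := by
    have : 0 < n := by omega
    exact_mod_cast this
  have h7 : Real.log (((2 ^ K : ℕ)) : ℝ) ≤ Real.log 2 + Real.log n := by
    rw [← Real.log_mul (by norm_num) hnpos.ne']
    apply Real.log_le_log
    · positivity
    · have h8 : 2 ^ K ≤ 2 * n := by
        have h9 : 2 ^ K = 2 * 2 ^ (K - 1) := by
          rw [← pow_succ', Nat.sub_add_cancel hKpos]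
        omega
      exact_mod_cast h8
  have h8 : ∀ (t x : ℝ), 0 ≤ t → t * Real.sqrt x = Real.sqrt (t ^ 2 * x) := by
    intro t x ht
    rw [Real.sqrt_mul (sq_nonneg t), Real.sqrt_sq ht]
  rw [h8 _ _ (by positivity), h8 _ _ (by positivity)]
  apply Real.sqrt_le_sqrt
  rw [← mul_div_assoc, ← mul_div_assoc]
  apply div_le_div_of_nonneg_right _ hlam.le
  have h9 : (1 + ε / 2) ^ 2 * Real.log (((2 ^ K : ℕ)) : ℝ) ≤
      (1 + ε / 2) ^ 2 * (Real.log 2 + Real.log n) :=
    mul_le_mul_of_nonneg_left h7 (sq_nonneg _)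
  have h10 : (1 + ε / 2) ^ 2 * (Real.log 2 + Real.log n) ≤ (1 + ε) ^ 2 * Real.log n := by
    have : Real.log n * c = (1 + ε) ^ 2 * Real.log n - (1 + ε / 2) ^ 2 * Real.log n := by
      rw [hc]; ring
    rw [this] at h1
    linarith
  exact h9.trans h10

end prob

end Pool.Agent.H3RD.Strong
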